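import Pool.Agent.MP_b5e119_nt.G1A.Defs

namespace Pool.Agent.G1A

open Finset Filter Topology Pool.Agent.G60 Pool.Agent.G42

theorem avg_dual (hK : KER_s) (N : ℕ) [NeZero N] (F : ZMod N → ℂ) (w : (ZMod N)ˣ) :
    ∑ χ : Ch N, (en N F χ : ℂ) * χ (w : ZMod N) =
      ∑ a, F ((w : ZMod N) * a) * (starRingEnd ℂ) (F a) := by
  have f0 : (N.totient : ℂ) ≠ 0 := Nat.cast_ne_zero.2 (Nat.totient_pos.2 (NeZero.pos N)).ne'
  have e : ∀ (χ : Ch N) (u : (ZMod N)ˣ), (starRingEnd ℂ) (χ (u : ZMod N)) = χ (u : ZMod N)⁻¹ :=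
    fun χ u => by
      rw [← Complex.inv_eq_conj (χ.unit_norm_eq_one u)]
      refine (eq_inv_of_mul_eq_one_left ?_).symm
      rw [← map_mul, ZMod.inv_mul_of_unit _ u.isUnit, map_one]
  obtain ⟨C, hC⟩ : ∃ C : (ZMod N)ˣ → ℂ,
      ∀ u, C u = ∑ a, F ((u : ZMod N) * a) * (starRingEnd ℂ) (F a) := ⟨_, fun _ => rfl⟩
  have e2 : ∀ χ : Ch N, (en N F χ : ℂ) * χ (w : ZMod N) =
      (∑ u : (ZMod N)ˣ, χ (u : ZMod N)⁻¹ * χ (w : ZMod N) * C u) / N.totient := fun χ => by
    rw [hK N F χ, div_mul_eq_mul_div, sum_mul]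
    exact congrArg (· / _) (sum_congr rfl fun u _ => by rw [e, hC, mul_right_comm])
  simp only [e2]
  rw [← sum_div, sum_comm, div_eq_iff f0, ← hC, sum_eq_single w (fun u _ hu => ?_) (by simp)]
  · rw [← sum_mul, DirichletCharacter.sum_char_inv_mul_char_eq ℂ w.isUnit, if_pos rfl, mul_comm]
  · rw [← sum_mul, DirichletCharacter.sum_char_inv_mul_char_eq ℂ u.isUnit,
      if_neg fun x => hu (Units.ext x), zero_mul]

theorem avg_fix (N M g m : ℕ) [NeZero N] (h : M ∣ N) (e : M * g = N) (m2 : 1 < M) :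
    #{w : (ZMod N)ˣ | ZMod.unitsMap h w = 1 ∧ (w : ZMod N) * m = m} ≤ Nat.gcd m g := by
  have n0 := NeZero.pos N
  have g0 : 0 < g := Nat.pos_of_mul_pos_left (e ▸ n0)
  obtain ⟨t, ht⟩ := Nat.gcd_dvd_right m g
  obtain ⟨s, hs⟩ := Nat.gcd_dvd_left m g
  have c0 : 0 < Nat.gcd m g := Nat.gcd_pos_of_pos_right _ g0
  have co : t.Coprime s := by
    have := Nat.coprime_div_gcd_div_gcd c0
    rw [Nat.div_eq_of_eq_mul_right c0 hs, Nat.div_eq_of_eq_mul_right c0 ht] at this
    exact this.symm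
  generalize Nat.gcd m g = c at *
  have t0 : 0 < t := Nat.pos_of_mul_pos_left (ht ▸ g0)
  have k : ∀ w : (ZMod N)ˣ, ZMod.unitsMap h w = 1 ∧ (w : ZMod N) * m = m →
      ∃ j, (w : ZMod N).val = M * t * j + 1 := fun w hw => by
    have a : (((w : ZMod N).val : ℕ) : ZMod M) = ((1 : ℕ) : ZMod M) := by
      rw [ZMod.natCast_val, ← ZMod.unitsMap_val h, hw.1, Units.val_one, Nat.cast_one]
    rw [ZMod.natCast_eq_natCast_iff', Nat.mod_eq_of_lt m2] at a
    have b := Nat.div_add_mod (w : ZMod N).val M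
    rw [a] at b
    generalize (w : ZMod N).val / M = j at b
    have c' : ((M * j * m : ℕ) : ZMod N) = 0 := by
      have := hw.2
      rw [← ZMod.natCast_zmod_val (w : ZMod N), ← b] at this
      push_cast at this ⊢
      linear_combination this
    rw [ZMod.natCast_eq_zero_iff, ← e, mul_assoc, Nat.mul_dvd_mul_iff_left (by omega), ht, hs,
      mul_left_comm, Nat.mul_dvd_mul_iff_left c0] at c'
    obtain ⟨i, rfl⟩ := co.dvd_of_dvd_mul_right c'
    exact ⟨i, by rw [← b, mul_assoc]⟩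
  have p0 : 0 < M * t := Nat.mul_pos (by omega) t0
  have p1 : 1 < M * t := lt_of_lt_of_le m2 (Nat.le_mul_of_pos_right _ t0)
  refine (card_le_card_of_injOn (t := range c) (fun w : (ZMod N)ˣ => (w : ZMod N).val / (M * t))
    (fun w hw => ?_) fun w hw w' hw' x => ?_).trans (card_range c).le
  · refine mem_coe.2 (mem_range.2 (Nat.div_lt_of_lt_mul ((ZMod.val_lt _).trans_eq ?_)))
    rw [← e, ht]
    ring
  · obtain ⟨j, a⟩ := k w (mem_filter.1 (mem_coe.1 hw)).2
    obtain ⟨j', a'⟩ := k w' (mem_filter.1 (mem_coe.1 hw')).2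
    simp only [a, a', Nat.mul_add_div p0, Nat.div_eq_of_lt p1, add_zero] at x
    exact Units.ext (ZMod.val_injective N (by rw [a, a', x]))

theorem avg_gcd (g x d : ℕ) (g0 : 0 < g) (h : g.Coprime d) (d0 : 0 < d) :
    ∑ m ∈ Icc 1 x with d ∣ m, (Nat.gcd m g : ℝ) ≤ #g.divisors * ((x : ℝ) / d) := by
  have a : ∀ m ∈ Icc 1 x, (if d ∣ m then (Nat.gcd m g : ℝ) else 0) ≤
      ∑ e ∈ g.divisors, if d * e ∣ m then (e : ℝ) else 0 := fun m _ => by
    refine le_trans ?_ (single_le_sum (f := fun e : ℕ => if d * e ∣ m then (e : ℝ) else 0)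
      (fun e _ => by positivity) (Nat.mem_divisors.2 ⟨Nat.gcd_dvd_right m g, g0.ne'⟩))
    by_cases c : d ∣ m
    · rw [if_pos c, if_pos ((h.symm.coprime_dvd_right (Nat.gcd_dvd_right m g)).mul_dvd_of_dvd_of_dvd
        c (Nat.gcd_dvd_left m g))]
    · rw [if_neg c]
      positivity
  rw [sum_filter]
  refine (sum_le_sum a).trans ?_
  rw [sum_comm, ← nsmul_eq_mul]
  refine sum_le_card_nsmul _ _ _ fun e he => ?_
  have e0 : (0 : ℝ) < e := Nat.cast_pos.2 (Nat.pos_of_mem_divisors he)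
  rw [← sum_filter, sum_const, nsmul_eq_mul, show Icc 1 x = Ioc 0 x from rfl,
    Nat.Ioc_filter_dvd_card_eq_div]
  refine (mul_le_mul_of_nonneg_right Nat.cast_div_le e0.le).trans_eq ?_
  have : (0 : ℝ) < d := Nat.cast_pos.2 d0
  push_cast
  field_simp

open Classical in
theorem avg_row (hKER : KER_s) : AVG_s := by
  intro N _ g x d hg hc hx d0
  obtain ⟨M, e⟩ := hg
  have n0 := NeZero.pos N
  have g0 : 0 < g := Nat.pos_of_mul_pos_right (e ▸ n0)
  have M0 : 0 < M := Nat.pos_of_mul_pos_left (e ▸ n0)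
  have h : M ∣ N := Dvd.intro_left g e.symm
  have xM : x < M := lt_of_mul_lt_mul_left (e ▸ hx) (Nat.zero_le g)
  have : NeZero M := ⟨M0.ne'⟩
  obtain ⟨K, hK⟩ : ∃ K : Finset (ZMod N)ˣ, K = univ.filter (ZMod.unitsMap h · = 1) :=
    ⟨_, rfl⟩
  have mK : ∀ w, w ∈ K ↔ ZMod.unitsMap h w = 1 := fun w => by simp [hK]
  have k1 : g.totient ≤ #K := by
    have a := card_le_mul_card_image_of_maps_to (s := univ) (t := univ) (f := ZMod.unitsMap h)
      (fun _ _ => mem_univ _) #K fun b _ => by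
        obtain ⟨c, rfl⟩ := ZMod.unitsMap_surjective h b
        refine card_le_card_of_injOn (fun w => w * c⁻¹) (fun w hw => mem_coe.2 ((mK _).2 ?_))
          fun _ _ _ _ y => mul_right_cancel y
        rw [map_mul, (mem_filter.1 (mem_coe.1 hw)).2, map_inv, mul_inv_cancel]
    rw [card_univ, card_univ, ZMod.card_units_eq_totient, ZMod.card_units_eq_totient] at a
    exact Nat.le_of_mul_le_mul_right ((e ▸ Nat.totient_super_multiplicative g M).trans a)
      (Nat.totient_pos.2 M0)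
  have k2 : ∀ χ : Ch N, (if g * χ.conductor ∣ N then (#K : ℝ) else 0) ≤
      (∑ w ∈ K, χ (w : ZMod N)).re := fun χ => by
    by_cases c : ∀ w ∈ K, χ (w : ZMod N) = 1
    · rw [sum_congr rfl c, sum_const, nsmul_eq_mul, mul_one, Complex.natCast_re]
      split_ifs
      · rfl
      · positivity
    · rw [if_neg fun y => c fun w hw => ?_]
      · push Not at c
        obtain ⟨u, hu, c⟩ := c
        have : χ (u : ZMod N) * ∑ w ∈ K, χ (w : ZMod N) = ∑ w ∈ K, χ (w : ZMod N) := by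
          rw [mul_sum]
          refine sum_bij' (fun w _ => u * w) (fun w _ => u⁻¹ * w) (fun w hw => ?_) (fun w hw => ?_)
            (fun w _ => by simp) (fun w _ => by simp) fun w _ => by rw [Units.val_mul, map_mul]
          · rw [mK, map_mul, (mK u).1 hu, (mK w).1 hw, one_mul]
          · rw [mK, map_mul, map_inv, (mK u).1 hu, (mK w).1 hw, inv_one, one_mul]
        rw [eq_zero_of_mul_eq_self_left c this, Complex.zero_re]
      · have := (DirichletCharacter.factorsThrough_iff_ker_unitsMap h).1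
          ((χ.mem_conductorSet_iff_conductor_dvd h).2
            (Nat.dvd_of_mul_dvd_mul_left g0 (e ▸ y))) ((mK w).1 hw)
        rw [← MulChar.coe_toUnitHom, MonoidHom.mem_ker.1 this, Units.val_one]
  have e0 : ∀ χ, 0 ≤ en N (BB N x d) χ := fun χ => sum_nonneg fun _ _ => sq_nonneg _
  have k3 : (#K : ℝ) * ∑ χ : Ch N with g * χ.conductor ∣ N, en N (BB N x d) χ ≤
      ∑ w ∈ K, ‖∑ a, BB N x d ((w : ZMod N) * a) * (starRingEnd ℂ) (BB N x d a)‖ := by
    simp only [← avg_dual hKER]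
    refine le_trans ?_ ((Complex.re_le_norm _).trans (norm_sum_le _ _))
    rw [sum_comm, Complex.re_sum, mul_sum, sum_filter]
    refine sum_le_sum fun χ _ => ?_
    rw [← mul_sum, Complex.re_ofReal_mul]
    refine le_trans (le_of_eq ?_) (mul_le_mul_of_nonneg_left (k2 χ) (e0 χ))
    split_ifs <;> ring
  have nb : ∀ a, ‖BB N x d a‖ = if 1 ≤ a.val ∧ a.val ≤ x ∧ d ∣ a.val then 1 else 0 := fun a => by
    unfold BB
    split_ifs
    · rcases lam_cases a.val with y | y <;> simp [y]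
    · exact norm_zero
  have k4 : ∀ w ∈ K, ‖∑ a, BB N x d ((w : ZMod N) * a) * (starRingEnd ℂ) (BB N x d a)‖ ≤
      ∑ a : ZMod N with 1 ≤ a.val ∧ a.val ≤ x ∧ d ∣ a.val,
        if (w : ZMod N) * a = a then (1 : ℝ) else 0 := fun w hw => by
    rw [sum_filter]
    refine (norm_sum_le _ _).trans (sum_le_sum fun a _ => ?_)
    rw [norm_mul, Complex.norm_conj, nb, nb]
    by_cases c : 1 ≤ a.val ∧ a.val ≤ x ∧ d ∣ a.val
    swap
    · rw [if_neg c, if_neg c, mul_zero]
    rw [if_pos c, if_pos c, mul_one]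
    by_cases c' : 1 ≤ ((w : ZMod N) * a).val ∧ ((w : ZMod N) * a).val ≤ x ∧
      d ∣ ((w : ZMod N) * a).val
    swap
    · rw [if_neg c']
      positivity
    rw [if_pos c', if_pos]
    refine ZMod.val_injective N ?_
    have y : ((((w : ZMod N) * a).val : ℕ) : ZMod M) = (a.val : ℕ) := by
      rw [ZMod.natCast_val, ZMod.natCast_val, ZMod.cast_mul h, ← ZMod.unitsMap_val h, (mK w).1 hw,
        Units.val_one, one_mul]
    rwa [ZMod.natCast_eq_natCast_iff', Nat.mod_eq_of_lt (by omega), Nat.mod_eq_of_lt (by omega)] at y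
  have k5 := k3.trans (sum_le_sum k4)
  rw [sum_comm] at k5
  have k6 : ∑ a : ZMod N with 1 ≤ a.val ∧ a.val ≤ x ∧ d ∣ a.val, ∑ w ∈ K,
      (if (w : ZMod N) * a = a then (1 : ℝ) else 0) ≤
        ∑ m ∈ Icc 1 x with d ∣ m, (Nat.gcd m g : ℝ) := by
    refine le_trans (sum_le_sum (g := fun a : ZMod N => (Nat.gcd a.val g : ℝ)) fun a ha => ?_) ?_
    · obtain ⟨a1, a2, -⟩ := (mem_filter.1 ha).2
      rw [sum_boole, hK, filter_filter]
      have := avg_fix N M g a.val h (by rw [e, mul_comm]) (by omega)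
      rw [ZMod.natCast_zmod_val] at this
      exact_mod_cast this
    · rw [← sum_image (g := fun a : ZMod N => a.val) (f := fun m : ℕ => (Nat.gcd m g : ℝ))
        fun _ _ _ _ y => ZMod.val_injective N y]
      refine sum_le_sum_of_subset_of_nonneg (fun m hm => ?_) fun _ _ _ => Nat.cast_nonneg _
      obtain ⟨a, ha, rfl⟩ := mem_image.1 hm
      obtain ⟨a1, a2, a3⟩ := (mem_filter.1 ha).2
      exact mem_filter.2 ⟨mem_Icc.2 ⟨a1, a2⟩, a3⟩
  rw [le_div_iff₀ (Nat.cast_pos.2 (Nat.totient_pos.2 g0)), mul_comm]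
  exact (mul_le_mul_of_nonneg_right (Nat.cast_le.2 k1) (sum_nonneg fun χ _ => e0 χ)).trans
    (k5.trans (k6.trans (avg_gcd g x d g0 hc d0)))

end Pool.Agent.G1A
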