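import Pool.Agent.MP_b5e119_nt.G1A.Defs

namespace Pool.Agent.G1A

open Finset Filter Topology Pool.Agent.G60 Pool.Agent.G42

theorem basew_ev (α : ℝ) (hα : 0 < α) :
    ∃ b₀ : ℕ, ∀ b : ℕ, b₀ ≤ b → 32 * (b : ℝ) ^ 7 ≤ ((2 : ℝ) ^ b) ^ α := by
  have hc : 0 < Real.log 2 * α := mul_pos (Real.log_pos one_lt_two) hα
  have h := (isLittleO_pow_exp_pos_mul_atTop 7 hc).bound (show (0 : ℝ) < 1 / 32 by norm_num)
  have h2 := tendsto_natCast_atTop_atTop.eventually h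
  obtain ⟨b₀, hb⟩ := eventually_atTop.1 h2
  refine ⟨b₀, fun b hb' => ?_⟩
  have h3 := hb b hb'
  rw [Real.norm_of_nonneg (by positivity), Real.norm_of_nonneg (by positivity)] at h3
  have e : ((2 : ℝ) ^ b) ^ α = Real.exp (Real.log 2 * α * b) := by
    rw [Real.rpow_def_of_pos (by positivity), Real.log_pow]
    ring_nf
  rw [e]
  linarith

theorem basew_sq (z : ℂ) : 1 + 2 * z.re ≤ ‖z + 1‖ ^ 2 := by
  rw [Complex.sq_norm, Complex.normSq_apply]
  simp only [Complex.add_re, Complex.one_re, Complex.add_im, Complex.one_im, add_zero]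
  nlinarith [sq_nonneg z.re, sq_nonneg z.im]

theorem basew_cost (N q : ℕ) (χ : Ch N) (hq : q.Prime) :
    1 + 2 * (χ (q : ZMod N)).re - (if q * χ.conductor ∣ N then (1 : ℝ) else 0) ≤ cost N q χ := by
  unfold cost
  by_cases h : q ∣ N
  · have h0 : χ (q : ZMod N) = 0 := by
      refine χ.map_nonunit ?_
      rw [ZMod.isUnit_iff_coprime, hq.coprime_iff_not_dvd]
      exact not_not.2 h
    rw [if_pos h, h0]
    split_ifs <;> simp
  · rw [if_neg h]
    have := basew_sq (χ (q : ZMod N))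
    split_ifs <;> linarith

theorem basew_cost0 (N q : ℕ) (χ : Ch N) : 0 ≤ cost N q χ := by
  unfold cost
  split_ifs <;> positivity

theorem basew_row (hLRB : LRB_s) (hBLK : BLK_s) (hMU : MUW_s) : BASEW_s := by
  intro α hα
  obtain ⟨b₁, h1⟩ := hLRB
  obtain ⟨b₂, h2⟩ := basew_ev α hα
  refine ⟨max 4 (max b₁ b₂), fun p _ b β hb hBM => ?_⟩
  have hb4 : 4 ≤ b := le_trans (le_max_left _ _) hb
  have hb1 : b₁ ≤ b := le_trans (le_trans (le_max_left _ _) (le_max_right _ _)) hb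
  have hb2 : b₂ ≤ b := le_trans (le_trans (le_max_right _ _) (le_max_right _ _)) hb
  obtain ⟨-, v, hv, hvN⟩ := h1 b hb1
  obtain ⟨q₀, hq₀, hq₀v⟩ := mem_image.1 hv
  have hv2 : 2 ^ b ^ 2 ≤ 2 * v := by
    have := ((hBLK b hb4).2 q₀ hq₀).2.2.1
    rwa [hq₀v] at this
  have hv3 : 2 ^ b ≤ v := by
    have h : 2 ^ (b + 1) ≤ 2 ^ b ^ 2 := Nat.pow_le_pow_right (by norm_num) (by nlinarith)
    rw [pow_succ] at h
    omega
  have hv3' : (2 : ℝ) ^ b ≤ v := by exact_mod_cast hv3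
  have hv0 : (0 : ℝ) < v := lt_of_lt_of_le (by positivity) hv3'
  have hb0 : (0 : ℝ) < b := by exact_mod_cast (by omega : 0 < b)
  have hvN' : (v : ℝ) ≤ 8 * (b : ℝ) ^ 7 * #(BF b v) := by exact_mod_cast hvN
  have hpow : 32 * (b : ℝ) ^ 7 ≤ (v : ℝ) ^ α :=
    (h2 b hb2).trans (Real.rpow_le_rpow (by positivity) hv3' hα.le)
  have hsplit : (v : ℝ) ^ α * (v : ℝ) ^ (1 - α) = v := by
    rw [← Real.rpow_add hv0]; simp
  have hw0 : 0 < (v : ℝ) ^ (1 - α) := Real.rpow_pos_of_pos hv0 _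
  have hN : 4 * (v : ℝ) ^ (1 - α) ≤ #(BF b v) := by
    have h7 : 0 < 8 * (b : ℝ) ^ 7 := by positivity
    refine le_of_mul_le_mul_left ?_ h7
    have := mul_le_mul_of_nonneg_right hpow hw0.le
    linarith
  have hN0 : (0 : ℝ) < #(BF b v) := by linarith
  have hv1 : (1 : ℝ) ≤ v := le_trans (one_le_pow₀ (by norm_num)) hv3'
  have hw2 : (v : ℝ) ^ (1 - 2 * α) ≤ (v : ℝ) ^ (1 - α) :=
    Real.rpow_le_rpow_of_exponent_le hv1 (by linarith)
  have hq : ∀ q ∈ BF b v, q.Prime ∧ q < 2 ^ b ^ 4 := by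
    intro q hq
    have h := (mem_filter.1 hq).1
    have h' := mem_filter.1 h
    exact ⟨h'.2, (mem_Ico.1 h'.1).2⟩
  have hmu : ∀ χ : Ch p, 0 ≤ en p (fC p) χ := fun χ => by unfold en; positivity
  have hA : ∀ χ ∈ Sw p b α, (#(BF b v) : ℝ) ≤ 4 * ∑ q ∈ BF b v, cost p q χ := by
    intro χ hχ
    unfold Sw at hχ
    have hχ1 := mem_filter.1 hχ
    have hχ' : ‖QQ p b v χ‖ ≤ (v : ℝ) ^ (1 - α) := by
      have h := hχ1.1
      unfold Sm at h
      exact (mem_filter.1 h).2 v hv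
    have hms := hχ1.2 v hv
    unfold MS at hms
    rw [card_filter] at hms
    push_cast at hms
    have hre : -‖QQ p b v χ‖ ≤ (QQ p b v χ).re := (abs_le.1 (Complex.abs_re_le_norm _)).1
    have hs := sum_le_sum fun q (hq' : q ∈ BF b v) => basew_cost p q χ (hq q hq').1
    rw [sum_sub_distrib, sum_add_distrib, ← mul_sum, ← Complex.re_sum] at hs
    simp only [sum_const, nsmul_eq_mul, mul_one] at hs
    have hQ : QQ p b v χ = ∑ q ∈ BF b v, χ (q : ZMod p) := rfl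
    rw [← hQ] at hs
    linarith
  have hB : ∀ q ∈ BF b v, ∑ χ : Ch p, en p (fC p) χ * cost p q χ ≤ 4 * (β * p) := by
    intro q hq'
    obtain ⟨hqp, hql⟩ := hq q hq'
    have hm := hMU p q hqp
    have hd := hBM q hqp.pos hql.le
    linarith
  refine le_of_mul_le_mul_left ?_ hN0
  calc (#(BF b v) : ℝ) * ∑ χ ∈ Sw p b α, en p (fC p) χ
      = ∑ χ ∈ Sw p b α, en p (fC p) χ * #(BF b v) := by rw [mul_comm, sum_mul]
    _ ≤ ∑ χ ∈ Sw p b α, en p (fC p) χ * (4 * ∑ q ∈ BF b v, cost p q χ) :=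
        sum_le_sum fun χ hχ => mul_le_mul_of_nonneg_left (hA χ hχ) (hmu χ)
    _ ≤ ∑ χ : Ch p, en p (fC p) χ * (4 * ∑ q ∈ BF b v, cost p q χ) :=
        sum_le_sum_of_subset_of_nonneg (subset_univ _) fun χ _ _ =>
          mul_nonneg (hmu χ) (mul_nonneg (by norm_num) (sum_nonneg fun q _ => basew_cost0 p q χ))
    _ = 4 * ∑ q ∈ BF b v, ∑ χ : Ch p, en p (fC p) χ * cost p q χ := by
        rw [sum_comm, mul_sum]
        refine sum_congr rfl fun χ _ => ?_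
        rw [← mul_sum]
        ring
    _ ≤ 4 * ∑ q ∈ BF b v, 4 * (β * p) :=
        mul_le_mul_of_nonneg_left (sum_le_sum hB) (by norm_num)
    _ = (#(BF b v) : ℝ) * (16 * β * p) := by
        rw [sum_const, nsmul_eq_mul]
        ring

end Pool.Agent.G1A
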