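import Pool.Agent.MP_b5e119_nt.G1A.Defs

/-! Row BLKW: the energy of one block is carried by the free and the missed primes. -/

namespace Pool.Agent.G1A

open Finset Filter Topology Pool.Agent.G60 Pool.Agent.G42

lemma blkw_en_nonneg (N : ℕ) [NeZero N] (F : ZMod N → ℂ) (χ : Ch N) : 0 ≤ en N F χ :=
  Finset.sum_nonneg fun _ _ => by positivity

lemma blkw_sq (u w : ℂ) : ‖u + w‖ ^ 2 ≤ 2 * ‖u‖ ^ 2 + 2 * ‖w‖ ^ 2 := by
  have h := norm_add_le u w
  have h0 := norm_nonneg (u + w)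
  nlinarith [sq_nonneg (‖u‖ - ‖w‖), norm_nonneg u, norm_nonneg w]

lemma blkw_co (N b v q : ℕ) (hN : 0 < N) (h : (b - 1) * q ≤ b * v) : q * XV N b v < N := by
  unfold XV
  rcases Nat.eq_zero_or_pos (b * v) with h0 | h0
  · rw [h0]; simpa using hN
  · have h1 : (b - 1) * (N - 1) / (b * v) * (b * v) ≤ (b - 1) * (N - 1) := Nat.div_mul_le_self _ _
    have h2 : q * ((b - 1) * (N - 1) / (b * v)) * (b * v) ≤ (N - 1) * (b * v) := by
      calc q * ((b - 1) * (N - 1) / (b * v)) * (b * v)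
          = q * ((b - 1) * (N - 1) / (b * v) * (b * v)) := by ring
        _ ≤ q * ((b - 1) * (N - 1)) := Nat.mul_le_mul_left _ h1
        _ = (N - 1) * ((b - 1) * q) := by ring
        _ ≤ (N - 1) * (b * v) := Nat.mul_le_mul_left _ h
    have h3 := Nat.le_of_mul_le_mul_right h2 h0
    omega

theorem blkw_row (hBLK : BLK_s) (hLIN : LIN_s) (hFREE : FREE_s) (hKILL : KILL_s)
    (hMISS : MISS_s) : BLKW_s := by
  classical
  intro N _ b v α χ hb hv hχ
  have hN : 0 < N := Nat.pos_of_ne_zero (NeZero.ne N)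
  set x := XV N b v with hx
  have hq : ∀ q ∈ BF b v, q.Prime ∧ q < 2 * v ∧ q * x < N := by
    intro q hq
    unfold BF at hq
    rw [Finset.mem_filter] at hq
    obtain ⟨hR, hbk⟩ := hq
    have h := (hBLK b hb).2 q hR
    rw [hbk] at h
    refine ⟨?_, h.2.2.2, blkw_co N b v q hN h.2.1⟩
    unfold RR at hR
    exact (Finset.mem_filter.1 hR).2
  have hv0 : (0 : ℝ) < v := by
    unfold BV at hv
    obtain ⟨q, hR, hbk⟩ := Finset.mem_image.1 hv
    have h := (hBLK b hb).2 q hR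
    rw [hbk] at h
    have : 0 < v := by omega
    exact_mod_cast this
  unfold Sw at hχ
  rw [Finset.mem_filter] at hχ
  obtain ⟨hSm, hMS⟩ := hχ
  have hQ : ‖QQ N b v χ‖ ≤ (v : ℝ) ^ (1 - α) := by
    unfold Sm at hSm
    exact (Finset.mem_filter.1 hSm).2 v hv
  have hM := hMS v hv
  have hsub : MS N b v χ ⊆ BF b v := Finset.filter_subset _ _
  -- pointwise decomposition
  have hpt : ∀ a, pj N (fun a => ∑ q ∈ BF b v, GG N q x a) χ a =
      (starRingEnd ℂ) (QQ N b v χ) * pj N (BB N x 1) χ a +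
        pj N (fun a => ∑ q ∈ MS N b v χ, GG N q x a) χ a := by
    intro a
    rw [(hLIN N χ).2.1 (BF b v) (fun q => GG N q x) a,
      (hLIN N χ).2.1 (MS N b v χ) (fun q => GG N q x) a]
    unfold QQ MS
    rw [map_sum, Finset.sum_mul, Finset.sum_filter, ← Finset.sum_add_distrib]
    refine Finset.sum_congr rfl fun q hqB => ?_
    obtain ⟨hp, -, hlt⟩ := hq q hqB
    by_cases hd : q ∣ N
    · have h0 : χ (q : ZMod N) = 0 := by
        apply MulChar.map_nonunit
        rw [ZMod.isUnit_iff_coprime]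
        intro hc
        exact (Nat.Prime.coprime_iff_not_dvd hp).1 hc hd
      rw [h0]
      by_cases hm : q * χ.conductor ∣ N
      · simp [hm]
      · rw [if_neg hm, ((hKILL N q χ (GG N q x) hd hm).1 ?_) a]
        · simp
        · intro a ha
          unfold GG
          rw [if_neg]
          exact fun h => ha h.1
    · have hm : ¬q * χ.conductor ∣ N := fun h => hd (Dvd.dvd.trans (Dvd.intro _ rfl) h)
      rw [if_neg hm, add_zero]
      exact hFREE N q x χ a ((Nat.Prime.coprime_iff_not_dvd hp).2 hd) hlt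
  have hmiss := hMISS N (MS N b v χ) x v χ (by
    intro q hqM
    obtain ⟨hp, h2, hlt⟩ := hq q (hsub hqM)
    have hm : q * χ.conductor ∣ N := (Finset.mem_filter.1 hqM).2
    exact ⟨hp, Dvd.dvd.trans (Dvd.intro _ rfl) hm, h2.le, hlt⟩)
  have h1 : (1 : ℕ) ∉ BF b v := fun h => Nat.not_prime_one (hq 1 h).1
  rw [Finset.sum_insert h1]
  have hE1 := blkw_en_nonneg N (BB N x 1) χ
  have hES : ∑ d ∈ MS N b v χ, en N (BB N x d) χ ≤ ∑ d ∈ BF b v, en N (BB N x d) χ :=
    Finset.sum_le_sum_of_subset_of_nonneg hsub fun d _ _ => blkw_en_nonneg N _ χ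
  have hES0 : 0 ≤ ∑ d ∈ MS N b v χ, en N (BB N x d) χ :=
    Finset.sum_nonneg fun d _ => blkw_en_nonneg N _ χ
  have hV1 : ‖QQ N b v χ‖ ^ 2 ≤ (v : ℝ) ^ (2 - 2 * α) := by
    calc ‖QQ N b v χ‖ ^ 2 ≤ ((v : ℝ) ^ (1 - α)) ^ 2 := by gcongr
      _ = (v : ℝ) ^ (2 - 2 * α) := by
        rw [← Real.rpow_natCast, ← Real.rpow_mul hv0.le]
        congr 1
        push_cast
        ring
  have hV2 : (v : ℝ) * #(MS N b v χ) ≤ (v : ℝ) ^ (2 - 2 * α) := by
    calc (v : ℝ) * #(MS N b v χ) ≤ v * (v : ℝ) ^ (1 - 2 * α) := by gcongr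
      _ = (v : ℝ) ^ (2 - 2 * α) := by
        rw [show (2 - 2 * α) = 1 + (1 - 2 * α) by ring, Real.rpow_add hv0, Real.rpow_one]
  have hV0 : 0 ≤ (v : ℝ) ^ (2 - 2 * α) := by positivity
  have hsplit : en N (fun a => ∑ q ∈ BF b v, GG N q x a) χ ≤
      2 * (‖QQ N b v χ‖ ^ 2 * en N (BB N x 1) χ) +
        2 * en N (fun a => ∑ q ∈ MS N b v χ, GG N q x a) χ := by
    unfold en
    rw [Finset.mul_sum, Finset.mul_sum, Finset.mul_sum, ← Finset.sum_add_distrib]
    refine Finset.sum_le_sum fun a _ => ?_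
    rw [hpt a]
    refine (blkw_sq _ _).trans (le_of_eq ?_)
    rw [norm_mul, mul_pow, RCLike.norm_conj]
  set V := (v : ℝ) ^ (2 - 2 * α) with hV
  set E1 := en N (BB N x 1) χ
  set EM := ∑ d ∈ MS N b v χ, en N (BB N x d) χ
  set EB := ∑ d ∈ BF b v, en N (BB N x d) χ
  have a1 : ‖QQ N b v χ‖ ^ 2 * E1 ≤ V * E1 := mul_le_mul_of_nonneg_right hV1 hE1
  have a2 : (v : ℝ) * #(MS N b v χ) * (E1 + EM) ≤ V * (E1 + EB) :=
    mul_le_mul hV2 (by linarith) (by linarith) hV0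
  have a3 : 0 ≤ V * EB := mul_nonneg hV0 (by linarith)
  nlinarith

end Pool.Agent.G1A
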