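import Pool.Agent.MP_b5e119_nt.G1A.Defs

namespace Pool.Agent.G1A

open Finset Filter Topology Pool.Agent.G60 Pool.Agent.G42

theorem decw_sum (p : ℕ) [NeZero p] (F : ℕ → ℝ) :
    ∑ a : ZMod p, (if a = 0 then 0 else F a.val) = ∑ n ∈ Icc 1 (p - 1), F n := by
  have e : ∑ a : ZMod p, (if a = 0 then 0 else F a.val) =
      ∑ a ∈ univ.filter (fun a : ZMod p => a ≠ 0), F a.val := by
    rw [sum_filter]
    exact sum_congr rfl fun a _ => by by_cases h : a = 0 <;> simp [h]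
  rw [e]
  have hp : 0 < p := Nat.pos_of_ne_zero (NeZero.ne p)
  refine sum_nbij' (fun a => a.val) (fun n => (n : ZMod p)) ?_ ?_ ?_ ?_ ?_
  · intro a ha
    have h0 : a ≠ 0 := (mem_filter.1 ha).2
    have h1 := ZMod.val_lt a
    have h2 : a.val ≠ 0 := fun h => h0 ((ZMod.val_eq_zero a).1 h)
    exact mem_Icc.2 ⟨by omega, by omega⟩
  · intro n hn
    have := mem_Icc.1 hn
    refine mem_filter.2 ⟨mem_univ _, ?_⟩
    rw [Ne, ZMod.natCast_eq_zero_iff]
    exact Nat.not_dvd_of_pos_of_lt (by omega) (by omega)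
  · intro a _
    exact ZMod.natCast_zmod_val a
  · intro n hn
    have := mem_Icc.1 hn
    exact ZMod.val_cast_of_lt (by omega)
  · intro a _
    rfl

theorem decw_h (N b : ℕ) [NeZero N] (a : ZMod N) :
    ∑ v ∈ BV b, ∑ q ∈ BF b v, GG N q (XV N b v) a =
      if a = 0 then 0 else ((HH N b a.val : ℤ) : ℂ) := by
  have e : ∑ v ∈ BV b, ∑ q ∈ BF b v, GG N q (XV N b v) a =
      ∑ q ∈ RR b, GG N q (XV N b (bk b q)) a := by
    rw [← sum_fiberwise_of_maps_to (s := RR b) (t := BV b) (g := bk b)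
      (fun q hq => mem_image_of_mem _ hq)]
    refine sum_congr rfl fun v _ => sum_congr rfl fun q hq => ?_
    rw [(mem_filter.1 hq).2]
  rw [e]
  by_cases h0 : a = 0
  · rw [if_pos h0, h0]
    refine sum_eq_zero fun q _ => ?_
    simp [GG]
  · rw [if_neg h0]
    have h2 : 0 < a.val := Nat.pos_of_ne_zero fun h => h0 ((ZMod.val_eq_zero a).1 h)
    unfold HH
    rw [Int.cast_sum]
    refine sum_congr rfl fun q hq => ?_
    have hq0 : 0 < q := (mem_filter.1 hq).2.pos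
    unfold GG
    by_cases h1 : q ∣ a.val ∧ a.val / q ≤ XV N b (bk b q)
    · rw [if_pos h1, if_pos ⟨h1.1, Nat.div_pos (Nat.le_of_dvd h2 h1.1) hq0, h1.2⟩]
    · rw [if_neg h1, if_neg fun h => h1 ⟨h.1, h.2.2⟩, Int.cast_zero]

theorem decw_row (hPARS : PARS_s) (hLIN : LIN_s) (hDECA : DECA_s) : DECW_s := by
  intro N _ b T hb hp hL
  have hb0 : (0 : ℝ) < b := by exact_mod_cast (by omega : 0 < b)
  have hA := hDECA N b hb hp
  set L : ℝ := LR b with hLdef
  set H : ℕ → ZMod N → ℂ := fun v a => ∑ q ∈ BF b v, GG N q (XV N b v) a with hH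
  set h : ZMod N → ℂ := fun a => ∑ v ∈ BV b, H v a with hh
  set g : ZMod N → ℂ := fun a => (L : ℂ) * fC N a + h a with hg
  have hpar : ∑ χ : Ch N, en N g χ =
      ∑ n ∈ Icc 1 (N - 1), (L * (lam n : ℝ) + (HH N b n : ℝ)) ^ 2 := by
    rw [hPARS N g, ← decw_sum N fun n => (L * (lam n : ℝ) + (HH N b n : ℝ)) ^ 2]
    refine sum_congr rfl fun a _ => ?_
    have e0 : h a = if a = 0 then 0 else ((HH N b a.val : ℤ) : ℂ) := decw_h N b a
    by_cases h0 : a = 0
    · have e : g a = 0 := by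
        simp only [hg, e0, fC, ff, if_pos h0]
        simp
      rw [if_pos h0, e]; simp
    · have e : g a = ((L * (lam a.val : ℝ) + (HH N b a.val : ℝ) : ℝ) : ℂ) := by
        simp only [hg, e0, fC, ff, if_neg h0]
        push_cast
        rfl
      rw [if_neg h0, e, Complex.norm_real, Real.norm_eq_abs, sq_abs]
  have c1 : 0 ≤ L ^ 2 / b := by positivity
  have c2 : 8 * L ^ 2 / b = 8 * (L ^ 2 / b) := by ring
  have hG : ∑ χ : Ch N, en N g χ ≤ N * (18 * L + 8 * (L ^ 2 / b)) := by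
    rw [hpar, ← c2]
    refine hA.trans (mul_le_mul_of_nonneg_right (by linarith) ?_)
    rw [c2]
    positivity
  have hpt : ∀ χ : Ch N, L ^ 2 * en N (fC N) χ ≤ 2 * en N g χ + 2 * #(BV b) *
      ∑ v ∈ BV b, en N (H v) χ := by
    intro χ
    have a4 : en N h χ ≤ #(BV b) * ∑ v ∈ BV b, en N (H v) χ := (hLIN N χ).2.2 (BV b) H
    have a5 : L ^ 2 * en N (fC N) χ ≤ 2 * en N g χ + 2 * en N h χ := by
      unfold en
      rw [mul_sum, mul_sum, mul_sum, ← sum_add_distrib]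
      refine sum_le_sum fun a _ => ?_
      have b0 : pj N g χ a = (L : ℂ) * pj N (fC N) χ a + pj N h χ a :=
        (hLIN N χ).1 (fC N) h L a
      have a1 : L ^ 2 * ‖pj N (fC N) χ a‖ ^ 2 = ‖pj N g χ a - pj N h χ a‖ ^ 2 := by
        rw [b0, add_sub_cancel_right, norm_mul, mul_pow, Complex.norm_real, Real.norm_eq_abs,
          sq_abs]
      have a2 : ‖pj N g χ a - pj N h χ a‖ ^ 2 ≤ (‖pj N g χ a‖ + ‖pj N h χ a‖) ^ 2 :=
        pow_le_pow_left₀ (norm_nonneg _) (norm_sub_le _ _) 2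
      nlinarith [sq_nonneg (‖pj N g χ a‖ - ‖pj N h χ a‖)]
    linarith
  have hs := sum_le_sum fun χ (_ : χ ∈ T) => hpt χ
  rw [← mul_sum, sum_add_distrib, ← mul_sum, ← mul_sum, sum_comm] at hs
  have hT : ∑ χ ∈ T, en N g χ ≤ ∑ χ : Ch N, en N g χ :=
    sum_le_sum_of_subset_of_nonneg (subset_univ _) fun χ _ _ =>
      sum_nonneg fun a _ => by positivity
  set W : ℝ := ∑ v ∈ BV b, ∑ χ ∈ T, en N (H v) χ with hW
  have hL2 : 0 < L ^ 2 := by positivity
  refine le_of_mul_le_mul_left ?_ hL2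
  have e : L ^ 2 * (40 * (1 / L + 1 / b) * N + 2 * #(BV b) / L ^ 2 * W) =
      40 * (N * L) + 40 * (N * (L ^ 2 / b)) + 2 * #(BV b) * W := by
    field_simp
  have c3 : (0 : ℝ) ≤ N * L := by positivity
  have c4 : (0 : ℝ) ≤ N * (L ^ 2 / b) := by positivity
  have c5 : (N : ℝ) * (18 * L + 8 * (L ^ 2 / b)) = 18 * (N * L) + 8 * (N * (L ^ 2 / b)) := by ring
  rw [e]
  linarith

end Pool.Agent.G1A
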