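import Pool.Agent.MP_b5e119_nt.G1A.Defs
import Pool.Agent.MP_b5e119_nt.G42A.EDefs

/-! Row FEWA of campaign h1a. -/

namespace Pool.Agent.G1A

open Finset Filter Topology Pool.Agent.G60 Pool.Agent.G42

theorem fewa_row [Sg] (hF : FEWW_s) (hL : LEV2_s) : FEWA_s := by
  classical
  intro γ e hγ he
  obtain ⟨y, β, N₀, hβ, h⟩ := hF (γ / 2) (e / 4) (by linarith) (by linarith)
  obtain ⟨N₁, hL⟩ := hL
  refine ⟨y, min β (e / 4), lt_min hβ (by linarith), N₀ + N₁, fun N _ hN hG => ?_⟩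
  have hN0 : (0 : ℝ) ≤ N := Nat.cast_nonneg N
  obtain ⟨U, hU1, hU2⟩ := h N (by omega) fun m h1 h2 =>
    (hG.2 m h1 h2).trans (mul_le_mul_of_nonneg_right (min_le_left _ _) hN0)
  obtain ⟨M, hM, g1, g2, V, g3, g4, g5⟩ := hL N (by omega) U (e / 4) (e / 4) (by linarith)
    (by linarith) hU2 (hG.1.trans (mul_le_mul_of_nonneg_right (min_le_right _ _) hN0))
  have hM1 : 1 ≤ M := Nat.pos_of_ne_zero (NeZero.ne M)
  have g6 : N ^ 200 ≤ M ^ 201 := by
    refine (Nat.pow_le_pow_iff_left (by norm_num : 999 ≠ 0)).1 ?_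
    calc (N ^ 200) ^ 999 = (N ^ 999) ^ 200 := by rw [← pow_mul, ← pow_mul]
      _ ≤ (M ^ 1000) ^ 200 := Nat.pow_le_pow_left g2 200
      _ = M ^ (1000 * 200) := by rw [← pow_mul]
      _ ≤ M ^ (201 * 999) := Nat.pow_le_pow_right hM1 (by norm_num)
      _ = (M ^ 201) ^ 999 := by rw [← pow_mul]
  have g7 : N ≤ M ^ 2 := by
    refine (Nat.pow_le_pow_iff_left (by norm_num : 200 ≠ 0)).1 (g6.trans ?_)
    rw [← pow_mul]
    exact Nat.pow_le_pow_right hM1 (by norm_num)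
  refine ⟨M, hM, g1, g6, ?_, V, ?_, by linarith⟩
  · have : (G42.odU M : ℝ) = odU M := rfl
    rw [this]
    linarith
  · have a1 : (#V : ℝ) ≤ #U := by exact_mod_cast g3
    have a2 : (N : ℝ) ≤ (M : ℝ) ^ (2 : ℝ) := by
      rw [Real.rpow_two]
      exact_mod_cast g7
    refine a1.trans (hU1.trans ((Real.rpow_le_rpow hN0 a2 (by linarith)).trans (le_of_eq ?_)))
    rw [← Real.rpow_mul (Nat.cast_nonneg M)]
    congr 1
    ring

end Pool.Agent.G1A
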