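import Pool.Agent.MP_b5e119_nt.G1A.Defs

/-! Row FEWW of campaign h1a. -/

namespace Pool.Agent.G1A

open Finset Filter Topology Pool.Agent.G60 Pool.Agent.G42

theorem feww_ms (N b v : ℕ) [NeZero N] (χ : Ch N) : #(MS N b v χ) ≤ Nat.log 2 N := by
  have h1 : MS N b v χ ⊆ N.primeFactors := fun q hq => by
    obtain ⟨g1, g2⟩ := mem_filter.1 hq
    exact Nat.mem_primeFactors.2 ⟨(mem_filter.1 (mem_filter.1 g1).1).2,
      (dvd_mul_right _ _).trans g2, NeZero.ne N⟩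
  refine (card_le_card h1).trans (Nat.le_log_of_pow_le Nat.one_lt_two ?_)
  refine le_trans ?_ (Nat.le_of_dvd (Nat.pos_of_ne_zero (NeZero.ne N)) N.prod_primeFactors_dvd)
  exact pow_card_le_prod _ _ _ fun q hq => (Nat.prime_of_mem_primeFactors hq).two_le

theorem feww_top (hB : BLK_s) (N b : ℕ) [NeZero N] (α : ℝ) (hb : 4 ≤ b) (h4 : α ≤ 1 / 4)
    (hl : (Nat.log 2 (Nat.log 2 N) : ℝ) + 3 ≤ α * (b : ℝ) ^ 2) : Sw N b α = Sm N b α := by
  refine filter_true_of_mem fun χ _ v hv => ?_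
  obtain ⟨q, hq, rfl⟩ := mem_image.1 hv
  have h1 := ((hB b hb).2 q hq).2.2.1
  generalize bk b q = v at *
  obtain ⟨t, ht⟩ : ∃ t, t = Nat.log 2 (Nat.log 2 N) := ⟨_, rfl⟩
  have h2 : Nat.log 2 N < 2 ^ (t + 1) := ht ▸ Nat.lt_pow_succ_log_self Nat.one_lt_two _
  rw [← ht] at hl
  have h3 : 4 * (t + 3) ≤ b ^ 2 := by
    have a1 : (0 : ℝ) ≤ (b : ℝ) ^ 2 := by positivity
    have a2 := mul_le_mul_of_nonneg_right h4 a1
    have a3 : 4 * ((t : ℝ) + 3) ≤ (b : ℝ) ^ 2 := by linarith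
    exact_mod_cast a3
  have h5 : (2 ^ (t + 1)) ^ 2 ≤ v := by
    have a1 : 2 ^ ((t + 1) * 2 + 1) ≤ 2 ^ b ^ 2 := Nat.pow_le_pow_right two_pos (by omega)
    rw [pow_succ, pow_mul] at a1
    omega
  have h6 : #(MS N b v χ) ^ 2 ≤ v :=
    (Nat.pow_le_pow_left ((feww_ms N b v χ).trans h2.le) 2).trans h5
  have h7 : (1 : ℝ) ≤ v := by
    have : 1 ≤ v := le_trans (Nat.one_le_pow _ _ (by positivity)) h5
    exact_mod_cast this
  refine le_trans ?_ (Real.rpow_le_rpow_of_exponent_le h7 (by linarith : (1 / 2 : ℝ) ≤ 1 - 2 * α))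
  rw [← Real.sqrt_eq_rpow]
  exact Real.le_sqrt_of_sq_le (by exact_mod_cast h6)

theorem feww_row (hI : INDW_s) (hC : G1N.CNTN_s) (hT : TWR_s) (hK : BLK_s) : FEWW_s := by
  classical
  intro γ e hγ he
  set α : ℝ := min (γ / 5) (1 / 4) with hα
  have hα0 : 0 < α := lt_min (by linarith) (by norm_num)
  have hα1 : α ≤ γ / 5 := min_le_left _ _
  have hα2 : α ≤ 1 / 4 := min_le_right _ _
  obtain ⟨B, hB⟩ := hT α hα0
  obtain ⟨b, hb, β, hβ, h⟩ := hI α e hα0 hα2 he B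
  obtain ⟨l₀, hl₀⟩ := hB b hb
  refine ⟨2 ^ b ^ 4, β, 2 ^ l₀, hβ, fun p _ hp hod => ?_⟩
  obtain ⟨j, h4, h5, h6⟩ := hl₀ (Nat.log 2 p) (Nat.le_log_of_pow_le Nat.one_lt_two hp)
  have h7 : tw b j ^ 4 < Nat.log 2 p := by
    have a1 : (4 : ℝ) ≤ tw b j := by exact_mod_cast h4
    have a2 : (0 : ℝ) < (tw b j : ℝ) ^ 4 := by positivity
    have a3 : (0 : ℝ) ≤ Nat.log 2 p := Nat.cast_nonneg _
    have a4 : α * Nat.log 2 p ≤ 1 / 4 * Nat.log 2 p := mul_le_mul_of_nonneg_right hα2 a3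
    have a5 : (tw b j : ℝ) ^ 4 < Nat.log 2 p := by linarith
    exact_mod_cast a5
  have h8 : 2 ^ tw b j ^ 4 < p :=
    (Nat.pow_lt_pow_right Nat.one_lt_two h7).trans_le (Nat.pow_log_le_self 2 (NeZero.ne p))
  refine ⟨(Sm p (tw b j) α)ᶜ, (hC p _ α h4 hα0 (by linarith) h5 h6).trans ?_, ?_⟩
  · refine Real.rpow_le_rpow_of_exponent_le ?_ (by linarith)
    exact_mod_cast Nat.pos_of_ne_zero (NeZero.ne p)
  · rw [compl_compl, ← feww_top hK p _ α h4 hα2 h6]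
    exact h p hod j h8

end Pool.Agent.G1A
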