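import Pool.Agent.MP_b5e119_nt.G1A.Defs
import Pool.Agent.MP_b5e119_nt.G42.IND

/-! Row INDW of campaign h1a. -/

namespace Pool.Agent.G1A

open Finset Filter Topology Pool.Agent.G60 Pool.Agent.G42

theorem indw_anti (p b : ℕ) [NeZero p] (hb : 0 < b) {α α' : ℝ} (h : α ≤ α') :
    Sw p b α' ⊆ Sw p b α := by
  intro χ hχ
  simp only [Sw, mem_filter] at hχ ⊢
  refine ⟨ind_anti p b hb h hχ.1, fun v hv => ?_⟩
  refine (hχ.2 v hv).trans (Real.rpow_le_rpow_of_exponent_le ?_ (by linarith))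
  exact_mod_cast ind_bk hb hv

theorem indw_row (hB : BASEW_s) (hS : STEPW_s) : INDW_s := by
  classical
  intro α e hα hα4 he B
  obtain ⟨b₀, hb₀⟩ := hB (α / 2) (by linarith)
  obtain ⟨c₀, hc₀⟩ := hS
  obtain ⟨n₁, hn₁⟩ := exists_nat_ge (12 / α)
  obtain ⟨n₂, hn₂⟩ := exists_nat_ge (800 / e)
  obtain ⟨b, hb⟩ : ∃ b : ℕ, b = B + b₀ + c₀ + n₁ + n₂ + 1 := ⟨_, rfl⟩
  have hmu : ∀ (p : ℕ) [NeZero p] (χ : Ch p), 0 ≤ en p (fC p) χ := fun p _ χ => by
    unfold en; positivity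
  have hal : ∀ c : ℕ, b ≤ c → 6 / (c : ℝ) ≤ α / 2 ∧ 400 / (c : ℝ) ≤ e / 2 := by
    intro c hc
    have h0 : (0 : ℝ) < c := by exact_mod_cast (by omega : 0 < c)
    have h1 : (n₁ : ℝ) ≤ c := by exact_mod_cast (by omega : n₁ ≤ c)
    have h2 : (n₂ : ℝ) ≤ c := by exact_mod_cast (by omega : n₂ ≤ c)
    have h3 := (div_le_iff₀ hα).1 (hn₁.trans h1)
    have h4 := (div_le_iff₀ he).1 (hn₂.trans h2)
    constructor
    · rw [div_le_iff₀ h0]; linarith
    · rw [div_le_iff₀ h0]; linarith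
  refine ⟨b, by omega, e / 32, by positivity, fun p _ hod j hj => ?_⟩
  have hp0 : (0 : ℝ) ≤ p := Nat.cast_nonneg p
  have key : ∀ j : ℕ, 2 ^ tw b j ^ 4 < p →
      ∑ χ ∈ Sw p (tw b j) (α - 6 / (tw b j : ℝ)), en p (fC p) χ ≤
        (e - 400 / (tw b j : ℝ)) * p := by
    intro j
    induction j with
    | zero =>
      intro _
      have h1 := hb₀ p b _ (by omega) hod
      obtain ⟨h2, h3⟩ := hal b le_rfl
      have h5 : ∑ χ ∈ Sw p b (α - 6 / (b : ℝ)), en p (fC p) χ ≤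
          ∑ χ ∈ Sw p b (α / 2), en p (fC p) χ :=
        sum_le_sum_of_subset_of_nonneg (indw_anti p b (by omega) (by linarith))
          fun χ _ _ => hmu p χ
      show ∑ χ ∈ Sw p b (α - 6 / (b : ℝ)), en p (fC p) χ ≤ (e - 400 / (b : ℝ)) * p
      have h6 := mul_le_mul_of_nonneg_right h3 hp0
      nlinarith
    | succ j ih =>
      intro hj
      obtain ⟨c, hc⟩ : ∃ c, c = tw b j := ⟨_, rfl⟩
      have hbc : b ≤ c := hc ▸ ind_tw b j
      have e1 : tw b (j + 1) = 2 ^ c := by rw [hc]; rfl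
      rw [e1] at hj ⊢
      rw [← hc] at ih
      have h2c := ind_two c
      have hj' : 2 ^ c ^ 4 < p :=
        lt_of_le_of_lt (Nat.pow_le_pow_right two_pos (Nat.pow_le_pow_left (by omega) 4)) hj
      have h0 : (0 : ℝ) < c := by exact_mod_cast (by omega : 0 < c)
      have h1 : 2 * (c : ℝ) ≤ ((2 ^ c : ℕ) : ℝ) := by exact_mod_cast h2c
      have h2 : 1 / ((2 ^ c : ℕ) : ℝ) ≤ 1 / (2 * (c : ℝ)) :=
        one_div_le_one_div_of_le (by positivity) h1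
      obtain ⟨h3, -⟩ := hal c hbc
      have e2 : 1 / (2 * (c : ℝ)) = 1 / 2 * (1 / (c : ℝ)) := by field_simp
      have e3 : ∀ (t y : ℝ), t / y = t * (1 / y) := fun t y => by ring
      have h60 : (0 : ℝ) ≤ 6 / (c : ℝ) := by positivity
      have h4 := hc₀ p c (α - 6 / (c : ℝ)) (α - 6 / ((2 ^ c : ℕ) : ℝ)) (by omega) hj (by linarith)
        (by linarith)
        (by rw [e3 6 (c : ℝ), e3 3 (c : ℝ), e3 6 ((2 ^ c : ℕ) : ℝ)]; linarith)
      have h5 := ih hj'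
      have h6 : ∑ χ ∈ Sw p (2 ^ c) (α - 6 / ((2 ^ c : ℕ) : ℝ)), en p (fC p) χ ≤
          ∑ χ ∈ Sw p (2 ^ c) (α - 6 / ((2 ^ c : ℕ) : ℝ)) \ Sw p c (α - 6 / (c : ℝ)),
            en p (fC p) χ + ∑ χ ∈ Sw p c (α - 6 / (c : ℝ)), en p (fC p) χ := by
        rw [← sum_union sdiff_disjoint]
        refine sum_le_sum_of_subset_of_nonneg ?_ fun χ _ _ => hmu p χ
        rw [sdiff_union_self_eq_union]
        exact subset_union_left
      rw [e3 200 (c : ℝ)] at h4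
      rw [e3 400 (c : ℝ)] at h5
      rw [e3 400 ((2 ^ c : ℕ) : ℝ)]
      rw [e2] at h2
      have h8 := mul_le_mul_of_nonneg_right h2 hp0
      refine h6.trans ?_
      refine (add_le_add (le_of_eq_of_le ?_ h4) h5).trans (by nlinarith)
      congr
  have h0 : (0 : ℝ) ≤ tw b j := Nat.cast_nonneg _
  have h1 : 0 ≤ 6 / (tw b j : ℝ) := by positivity
  have h2 : 0 ≤ 400 / (tw b j : ℝ) * p := by positivity
  have h3 := ind_tw b j
  have h4 : ∑ χ ∈ Sw p (tw b j) α, en p (fC p) χ ≤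
      ∑ χ ∈ Sw p (tw b j) (α - 6 / (tw b j : ℝ)), en p (fC p) χ :=
    sum_le_sum_of_subset_of_nonneg (indw_anti p _ (by omega) (by linarith)) fun χ _ _ => hmu p χ
  have := key j hj
  nlinarith

end Pool.Agent.G1A
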