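import Pool.Agent.MP_b5e119_nt.G1A.Defs

/-! The energy of a projection as a sum over the units, and Parseval's identity. -/

namespace Pool.Agent.G1A

open Finset Filter Topology Pool.Agent.G60 Pool.Agent.G42

theorem ker_one {N : ℕ} (χ : Ch N) (u : (ZMod N)ˣ) :
    (starRingEnd ℂ) (χ (u : ZMod N)) * χ (u : ZMod N) = 1 := by
  rw [Complex.conj_mul', χ.unit_norm_eq_one u]
  simp

theorem ker_row : KER_s := by
  intro N _ F χ
  have hφ : (N.totient : ℂ) ≠ 0 := by exact_mod_cast (Nat.totient_pos.2 (NeZero.pos N)).ne'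
  have h1 : ∀ v : (ZMod N)ˣ, ∑ a, (∑ u : (ZMod N)ˣ, (starRingEnd ℂ) (χ (u : ZMod N)) *
      F ((u : ZMod N) * a)) * (χ (v : ZMod N) * (starRingEnd ℂ) (F ((v : ZMod N) * a))) =
      ∑ u : (ZMod N)ˣ, (starRingEnd ℂ) (χ (u : ZMod N)) *
        ∑ a, F ((u : ZMod N) * a) * (starRingEnd ℂ) (F a) := by
    intro v
    simp_rw [sum_mul]
    rw [sum_comm, ← Equiv.sum_comp (Equiv.mulRight v)]
    refine sum_congr rfl fun w _ => ?_
    rw [← Equiv.sum_comp (Units.mulLeft v)
      (fun a => F ((w : ZMod N) * a) * (starRingEnd ℂ) (F a)), mul_sum]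
    refine sum_congr rfl fun a _ => ?_
    simp only [Equiv.coe_mulRight, Units.val_mul, map_mul, Units.mulLeft_apply]
    rw [mul_assoc (w : ZMod N)]
    linear_combination ((starRingEnd ℂ) (χ (w : ZMod N)) * F ((w : ZMod N) * ((v : ZMod N) * a)) *
      (starRingEnd ℂ) (F ((v : ZMod N) * a))) * ker_one χ v
  have h2 : (en N F χ : ℂ) = (∑ v : (ZMod N)ˣ, ∑ a, (∑ u : (ZMod N)ˣ,
      (starRingEnd ℂ) (χ (u : ZMod N)) * F ((u : ZMod N) * a)) *
        (χ (v : ZMod N) * (starRingEnd ℂ) (F ((v : ZMod N) * a)))) / (N.totient : ℂ) ^ 2 := by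
    rw [sum_comm, sum_div, en, Complex.ofReal_sum]
    refine sum_congr rfl fun a _ => ?_
    rw [Complex.ofReal_pow, ← Complex.mul_conj', pj, ← mul_sum, map_div₀, map_sum, map_natCast,
      div_mul_div_comm, sq]
    simp only [map_mul, Complex.conj_conj]
  rw [h2, sum_congr rfl fun v _ => h1 v, sum_const, card_univ, ZMod.card_units_eq_totient,
    nsmul_eq_mul]
  field_simp

end Pool.Agent.G1A
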