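import Pool.Agent.MP_b5e119_nt.G1A.Defs

namespace Pool.Agent.G1A

open Finset Filter Topology Pool.Agent.G60 Pool.Agent.G42

theorem kill_w (N : ℕ) [NeZero N] (q : ℕ) (χ : Ch N) (hq : q ∣ N) (h : ¬q * χ.conductor ∣ N) :
    ∃ w : (ZMod N)ˣ, χ (w : ZMod N) ≠ 1 ∧ (q : ZMod N) * w = q := by
  obtain ⟨M, hM⟩ := hq
  have hd : M ∣ N := ⟨q, by rw [hM, mul_comm]⟩
  have hnf : ¬χ.FactorsThrough M := by
    intro hf
    apply h
    have h1 := DirichletCharacter.conductor_dvd_of_mem_conductorSet χ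
      ((DirichletCharacter.mem_conductorSet_iff χ).2 hf)
    exact (Nat.mul_dvd_mul_left q h1).trans (dvd_of_eq hM.symm)
  rw [DirichletCharacter.factorsThrough_iff_ker_unitsMap hd] at hnf
  obtain ⟨w, hw1, hw2⟩ := SetLike.not_le_iff_exists.1 hnf
  refine ⟨w, ?_, ?_⟩
  · intro h1
    apply hw2
    rw [MonoidHom.mem_ker, Units.ext_iff, MulChar.coe_toUnitHom, Units.val_one]
    exact h1
  · rw [MonoidHom.mem_ker, Units.ext_iff, ZMod.unitsMap_val, Units.val_one] at hw1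
    have h2 : (((w : ZMod N).val : ℕ) : ZMod M) = ((1 : ℕ) : ZMod M) := by
      rw [ZMod.natCast_val, Nat.cast_one]
      exact hw1
    rw [ZMod.natCast_eq_natCast_iff] at h2
    have h3 : q * (w : ZMod N).val ≡ q * 1 [MOD N] :=
      Nat.ModEq.of_dvd (dvd_of_eq hM) (h2.mul_left' q)
    have h4 := (ZMod.natCast_eq_natCast_iff _ _ _).2 h3
    rw [Nat.cast_mul, ZMod.natCast_zmod_val, mul_one] at h4
    exact h4

theorem kill_z (N : ℕ) [NeZero N] (χ : Ch N) (G : (ZMod N)ˣ → ℂ) (w : (ZMod N)ˣ)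
    (hw : χ (w : ZMod N) ≠ 1) (hG : ∀ u, G (u * w) = G u) :
    ∑ u : (ZMod N)ˣ, (starRingEnd ℂ) (χ (u : ZMod N)) * G u = 0 := by
  have h1 := Equiv.sum_comp (Equiv.mulRight w)
    (fun u : (ZMod N)ˣ => (starRingEnd ℂ) (χ (u : ZMod N)) * G u)
  have h2 : ∑ u : (ZMod N)ˣ, (starRingEnd ℂ) (χ ((Equiv.mulRight w u : (ZMod N)ˣ) : ZMod N)) *
      G (Equiv.mulRight w u) = (starRingEnd ℂ) (χ (w : ZMod N)) *
        ∑ u : (ZMod N)ˣ, (starRingEnd ℂ) (χ (u : ZMod N)) * G u := by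
    rw [mul_sum]
    refine sum_congr rfl fun u _ => ?_
    rw [Equiv.coe_mulRight]
    simp only [hG, Units.val_mul, map_mul]
    ring
  have h3 : (starRingEnd ℂ) (χ (w : ZMod N)) ≠ 1 := by
    intro h
    apply hw
    have h5 := congrArg (starRingEnd ℂ) h
    rwa [Complex.conj_conj, map_one] at h5
  have h4 : ((starRingEnd ℂ) (χ (w : ZMod N)) - 1) *
      ∑ u : (ZMod N)ˣ, (starRingEnd ℂ) (χ (u : ZMod N)) * G u = 0 := by
    rw [sub_mul, one_mul, ← h2, h1, sub_self]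
  exact (mul_eq_zero.1 h4).resolve_left (sub_ne_zero.2 h3)

theorem kill_row : KILL_s := by
  intro N _ q χ F hq h
  obtain ⟨w, hw, hqw⟩ := kill_w N q χ hq h
  have key : ∀ b : ZMod N, q ∣ b.val → (w : ZMod N) * b = b := by
    intro b hb
    obtain ⟨c, hc⟩ := hb
    have h1 : b = (q : ZMod N) * (c : ZMod N) := by
      rw [← Nat.cast_mul, ← hc, ZMod.natCast_zmod_val]
    rw [h1, ← mul_assoc, mul_comm (w : ZMod N), hqw]
  refine ⟨fun hF a => ?_, fun a => ?_⟩
  · have hinv : ∀ b : ZMod N, F ((w : ZMod N) * b) = F b := by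
      intro b
      by_cases h1 : q ∣ b.val
      · rw [key b h1]
      · by_cases h2 : q ∣ ((w : ZMod N) * b).val
        · have h3 := key _ h2
          rw [(Units.mul_right_inj w).1 h3]
        · rw [hF _ h1, hF _ h2]
    unfold pj
    rw [kill_z N χ (fun u => F ((u : ZMod N) * a)) w hw, zero_div]
    intro u
    have h4 : ((u * w : (ZMod N)ˣ) : ZMod N) * a = (w : ZMod N) * ((u : ZMod N) * a) := by
      rw [Units.val_mul]
      ring
    simp only [h4, hinv]
  · unfold pj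
    rw [kill_z N χ (fun u => F ((q : ZMod N) * ((u : ZMod N) * a))) w hw, zero_div]
    intro u
    have h4 : (q : ZMod N) * (((u * w : (ZMod N)ˣ) : ZMod N) * a) =
        (q : ZMod N) * ((u : ZMod N) * a) := by
      rw [Units.val_mul]
      calc (q : ZMod N) * ((u : ZMod N) * w * a) = ((q : ZMod N) * w) * ((u : ZMod N) * a) := by ring
        _ = _ := by rw [hqw]
    simp only [h4]

end Pool.Agent.G1A
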