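import Pool.Agent.MP_b5e119_nt.G1A.Defs

namespace Pool.Agent.G1A

open Finset Filter Topology Pool.Agent.G60 Pool.Agent.G42

theorem lev1_fib {G H : Type} [Group G] [Group H] [Fintype G] [Fintype H] (π : G →* H)
    (hπ : Function.Surjective π) (F : H → ℂ) :
    (Fintype.card H : ℂ) * ∑ u, F (π u) = (Fintype.card G : ℂ) * ∑ w, F w := by
  have h1 : ∀ w : H, ∑ u, F (π u) = ∑ u, F (π u * w) := fun w => by
    obtain ⟨s, rfl⟩ := hπ w
    rw [← Equiv.sum_comp (Equiv.mulRight s) fun u => F (π u)]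
    exact sum_congr rfl fun u _ => by simp
  have h2 : ∀ u : G, ∑ w, F (π u * w) = ∑ w, F w := fun u =>
    Equiv.sum_comp (Equiv.mulLeft (π u)) F
  calc (Fintype.card H : ℂ) * ∑ u, F (π u) = ∑ _w : H, ∑ u, F (π u) := by
        rw [sum_const, card_univ, nsmul_eq_mul]
    _ = ∑ w : H, ∑ u, F (π u * w) := sum_congr rfl fun w _ => h1 w
    _ = ∑ u : G, ∑ w, F (π u * w) := sum_comm
    _ = ∑ _u : G, ∑ w, F w := sum_congr rfl fun u _ => h2 u
    _ = _ := by rw [sum_const, card_univ, nsmul_eq_mul]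

theorem lev1_val (N M g : ℕ) [NeZero N] [NeZero M] (e : M * g = N) (y : ZMod M) :
    ((g * y.val : ℕ) : ZMod N).val = g * y.val := by
  have hg : 0 < g := Nat.pos_of_ne_zero fun h0 => NeZero.ne N (by rw [← e, h0, mul_zero])
  refine ZMod.val_cast_of_lt ?_
  rw [← e, mul_comm M g]
  exact Nat.mul_lt_mul_of_pos_left (ZMod.val_lt y) hg

theorem lev1_ff (N M g : ℕ) [NeZero N] [NeZero M] (h : M ∣ N) (e : M * g = N) (u : (ZMod N)ˣ)
    (x : ZMod M) : ff N ((u : ZMod N) * ((g * x.val : ℕ) : ZMod N)) =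
      lam g * ff M ((ZMod.unitsMap h u : ZMod M) * x) := by
  have hg : g ≠ 0 := fun h0 => NeZero.ne N (by rw [← e, h0, mul_zero])
  obtain ⟨y, hy⟩ : ∃ y : ZMod M, y = (ZMod.unitsMap h u : ZMod M) * x := ⟨_, rfl⟩
  have h1 : (u : ZMod N).val * x.val ≡ y.val [MOD M] := by
    rw [← ZMod.natCast_eq_natCast_iff, Nat.cast_mul, ZMod.natCast_zmod_val, ZMod.natCast_zmod_val,
      ZMod.natCast_val, hy, ZMod.unitsMap_val]
  have h2 : g * ((u : ZMod N).val * x.val) ≡ g * y.val [MOD N] := by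
    have := Nat.ModEq.mul_left' (c := g) h1
    rwa [mul_comm g M, e] at this
  have h3 : (u : ZMod N) * ((g * x.val : ℕ) : ZMod N) = ((g * y.val : ℕ) : ZMod N) := by
    rw [← (ZMod.natCast_eq_natCast_iff _ _ _).2 h2]
    push_cast
    rw [ZMod.natCast_zmod_val]
    ring
  rw [h3, ← hy]
  by_cases h0 : y = 0
  · simp [ff, h0]
  · have hv : y.val ≠ 0 := fun h => h0 ((ZMod.val_eq_zero y).1 h)
    have h4 : ((g * y.val : ℕ) : ZMod N) ≠ 0 := fun h => by
      have := lev1_val N M g e y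
      rw [h, ZMod.val_zero] at this
      exact Nat.mul_ne_zero hg hv this.symm
    unfold ff
    rw [if_neg h4, if_neg h0, lev1_val N M g e y]
    unfold lam
    rw [ArithmeticFunction.cardFactors_mul hg hv, pow_add]

theorem lev1_un (M : ℕ) [NeZero M] (ψ : Ch M) (F : ZMod M → ℂ) :
    ∑ a, F a * (starRingEnd ℂ) (ψ a) =
      ∑ w : (ZMod M)ˣ, (starRingEnd ℂ) (ψ (w : ZMod M)) * F (w : ZMod M) := by
  classical
  have h1 : ∑ w : (ZMod M)ˣ, (starRingEnd ℂ) (ψ (w : ZMod M)) * F (w : ZMod M) =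
      ∑ a ∈ univ.image (fun w : (ZMod M)ˣ => (w : ZMod M)), F a * (starRingEnd ℂ) (ψ a) := by
    rw [sum_image fun a _ b _ hab => Units.ext hab]
    exact sum_congr rfl fun w _ => mul_comm _ _
  rw [h1]
  refine (sum_subset (subset_univ _) fun a _ ha => ?_).symm
  have : ¬IsUnit a := fun hu => ha (mem_image.2 ⟨hu.unit, mem_univ _, hu.unit_spec⟩)
  rw [ψ.map_nonunit this, map_zero, mul_zero]

theorem lev1_pj (N M g : ℕ) [NeZero N] [NeZero M] (h : M ∣ N) (ψ : Ch M) (e : M * g = N)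
    (b : (ZMod M)ˣ) :
    ‖pj N (fC N) (DirichletCharacter.changeLevel h ψ) ((g * (b : ZMod M).val : ℕ) : ZMod N)‖ ^ 2 =
      G27.nu M ψ := by
  have hN : (N.totient : ℂ) ≠ 0 := by
    exact_mod_cast (Nat.totient_pos.2 (Nat.pos_of_ne_zero (NeZero.ne N))).ne'
  have hM : (M.totient : ℂ) ≠ 0 := by
    exact_mod_cast (Nat.totient_pos.2 (Nat.pos_of_ne_zero (NeZero.ne M))).ne'
  have h1 := lev1_fib (ZMod.unitsMap h) (ZMod.unitsMap_surjective h)
    fun w => (starRingEnd ℂ) (ψ (w : ZMod M)) * (ff M ((w : ZMod M) * b) : ℂ)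
  rw [ZMod.card_units_eq_totient, ZMod.card_units_eq_totient] at h1
  have h2 : (starRingEnd ℂ) (ψ (b : ZMod M)) * ∑ w : (ZMod M)ˣ,
      (starRingEnd ℂ) (ψ (w : ZMod M)) * (ff M ((w : ZMod M) * b) : ℂ) =
      ∑ w : (ZMod M)ˣ, (starRingEnd ℂ) (ψ (w : ZMod M)) * (ff M (w : ZMod M) : ℂ) := by
    rw [mul_sum, ← Equiv.sum_comp (Equiv.mulRight b)
      fun w : (ZMod M)ˣ => (starRingEnd ℂ) (ψ (w : ZMod M)) * (ff M (w : ZMod M) : ℂ)]
    refine sum_congr rfl fun w _ => ?_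
    simp only [Equiv.coe_mulRight, Units.val_mul, map_mul]
    ring
  have h3 : (starRingEnd ℂ) (ψ (b : ZMod M)) *
      pj N (fC N) (DirichletCharacter.changeLevel h ψ) ((g * (b : ZMod M).val : ℕ) : ZMod N) =
      (lam g : ℂ) * G27.cu M (fun a => (ff M a : ℂ)) ψ := by
    unfold pj G27.cu fC
    rw [lev1_un, ← h2]
    have h4 : ∑ u : (ZMod N)ˣ, (starRingEnd ℂ) (DirichletCharacter.changeLevel h ψ (u : ZMod N)) *
        (ff N ((u : ZMod N) * ((g * (b : ZMod M).val : ℕ) : ZMod N)) : ℂ) =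
        (lam g : ℂ) * ∑ u : (ZMod N)ˣ, (starRingEnd ℂ) (ψ (ZMod.unitsMap h u : ZMod M)) *
          (ff M ((ZMod.unitsMap h u : ZMod M) * b) : ℂ) := by
      rw [mul_sum]
      refine sum_congr rfl fun u _ => ?_
      rw [lev1_ff N M g h e, DirichletCharacter.changeLevel_eq_cast_of_dvd, ZMod.unitsMap_val]
      push_cast
      ring
    rw [h4]
    field_simp
    linear_combination (lam g : ℂ) * (starRingEnd ℂ) (ψ (b : ZMod M)) * h1
  have h5 := congrArg norm h3
  have h6 : ‖(lam g : ℂ)‖ = 1 := by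
    unfold lam
    push_cast
    rw [norm_pow, norm_neg, norm_one, one_pow]
  rw [norm_mul, norm_mul, Complex.norm_conj, ψ.unit_norm_eq_one b, h6, one_mul, one_mul] at h5
  rw [h5]
  rfl

theorem lev1_row : LEV1_s := by
  intro N M g _ _ h ψ e
  have hg : 0 < g := Nat.pos_of_ne_zero fun h0 => NeZero.ne N (by rw [← e, h0, mul_zero])
  have hinj : Set.InjOn (fun b : (ZMod M)ˣ => ((g * (b : ZMod M).val : ℕ) : ZMod N))
      (univ : Finset (ZMod M)ˣ) := by
    intro a _ b _ hab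
    have h1 := congrArg ZMod.val hab
    simp only [lev1_val N M g e] at h1
    exact Units.ext (ZMod.val_injective M (Nat.eq_of_mul_eq_mul_left hg h1))
  calc (M.totient : ℝ) * G27.nu M ψ = ∑ _b : (ZMod M)ˣ, G27.nu M ψ := by
        rw [sum_const, card_univ, ZMod.card_units_eq_totient, nsmul_eq_mul]
    _ = ∑ b : (ZMod M)ˣ, ‖pj N (fC N) (DirichletCharacter.changeLevel h ψ)
          ((g * (b : ZMod M).val : ℕ) : ZMod N)‖ ^ 2 :=
        sum_congr rfl fun b _ => (lev1_pj N M g h ψ e b).symm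
    _ = ∑ a ∈ univ.image (fun b : (ZMod M)ˣ => ((g * (b : ZMod M).val : ℕ) : ZMod N)),
          ‖pj N (fC N) (DirichletCharacter.changeLevel h ψ) a‖ ^ 2 :=
        (sum_image (f := fun a => ‖pj N (fC N) (DirichletCharacter.changeLevel h ψ) a‖ ^ 2)
          hinj).symm
    _ ≤ _ := by
        refine sum_le_sum_of_subset_of_nonneg (fun a ha => ?_) fun _ _ _ => by positivity
        obtain ⟨b, -, rfl⟩ := mem_image.1 ha
        refine mem_filter.2 ⟨mem_univ _, ?_⟩
        rw [lev1_val N M g e, ← e, mul_comm M g, Nat.gcd_mul_left,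
          (ZMod.val_coe_unit_coprime b).gcd_eq_one, mul_one]

end Pool.Agent.G1A
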