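import Pool.Agent.MP_b5e119_nt.G1A.Defs

/-! Rows LIN, FREE and MISB of campaign h1a. -/

namespace Pool.Agent.G1A

open Finset Filter Topology Pool.Agent.G60 Pool.Agent.G42

theorem lin_sum (N : ℕ) [NeZero N] (χ : Ch N) (s : Finset ℕ) (F : ℕ → ZMod N → ℂ) (a : ZMod N) :
    pj N (fun a => ∑ i ∈ s, F i a) χ a = ∑ i ∈ s, pj N (F i) χ a := by
  unfold pj
  rw [← sum_div, sum_comm]
  congr 1
  refine sum_congr rfl fun u _ => ?_
  rw [mul_sum]

theorem lin_row : LIN_s := by
  intro N _ χ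
  refine ⟨fun F G c a => ?_, lin_sum N χ, fun s F => ?_⟩
  · unfold pj
    rw [← mul_div_assoc, ← add_div, mul_sum, ← sum_add_distrib]
    congr 1
    refine sum_congr rfl fun u _ => ?_
    ring
  · unfold en
    rw [sum_comm, mul_sum]
    refine sum_le_sum fun a _ => ?_
    rw [lin_sum]
    exact (pow_le_pow_left₀ (norm_nonneg _) (norm_sum_le _ _) 2).trans sq_sum_le_card_mul_sum_sq

theorem free_pt (N : ℕ) [NeZero N] (q x : ℕ) (hq : q.Coprime N) (hx : q * x < N) (b : ZMod N) :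
    GG N q x ((q : ZMod N) * b) = BB N x 1 b := by
  have hu : IsUnit (q : ZMod N) := (ZMod.isUnit_iff_coprime q N).2 hq
  unfold GG BB
  by_cases h : 1 ≤ b.val ∧ b.val ≤ x
  · have hq0 : 0 < q := by
      rcases Nat.eq_zero_or_pos q with h0 | h0
      · subst h0
        have h1 : N = 1 := by simpa using hq
        have h2 := ZMod.val_lt b
        omega
      · exact h0
    have hlt : q * b.val < N := lt_of_le_of_lt (Nat.mul_le_mul_left q h.2) hx
    have hv : ((q : ZMod N) * b).val = q * b.val := by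
      have e : (q : ZMod N) * b = ((q * b.val : ℕ) : ZMod N) := by
        rw [Nat.cast_mul, ZMod.natCast_zmod_val]
      rw [e, ZMod.val_cast_of_lt hlt]
    rw [hv, Nat.mul_div_cancel_left _ hq0, if_pos ⟨Dvd.intro _ rfl, h.1, h.2⟩,
      if_pos ⟨h.1, h.2, one_dvd _⟩]
  · rw [if_neg, if_neg (fun h' => h ⟨h'.1, h'.2.1⟩)]
    rintro ⟨h1, h2, h3⟩
    apply h
    have e : q * (((q : ZMod N) * b).val / q) = ((q : ZMod N) * b).val := Nat.mul_div_cancel' h1
    have e2 : (q : ZMod N) * ((((q : ZMod N) * b).val / q : ℕ) : ZMod N) = (q : ZMod N) * b := by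
      rw [← Nat.cast_mul, e, ZMod.natCast_zmod_val]
    have e3 := hu.mul_left_cancel e2
    have hlt : ((q : ZMod N) * b).val / q < N :=
      lt_of_le_of_lt (Nat.div_le_self _ _) (ZMod.val_lt _)
    have e4 : b.val = ((q : ZMod N) * b).val / q := by
      rw [← ZMod.val_cast_of_lt hlt, e3]
    rw [e4]
    exact ⟨h2, h3⟩

theorem free_row : FREE_s := by
  intro N _ q x χ a hq hx
  obtain ⟨Q, hQ⟩ : IsUnit (q : ZMod N) := (ZMod.isUnit_iff_coprime q N).2 hq
  unfold pj
  rw [← mul_div_assoc, mul_sum, ← Equiv.sum_comp (Equiv.mulLeft Q)]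
  congr 1
  refine sum_congr rfl fun u _ => ?_
  rw [Equiv.coe_mulLeft, Units.val_mul, hQ, map_mul, map_mul, mul_assoc (q : ZMod N),
    free_pt N q x hq hx, mul_assoc]

theorem misb_iff (N : ℕ) [NeZero N] (d : ℕ) (hd : d ∣ N) (u : (ZMod N)ˣ) (c : ZMod N) :
    d ∣ ((u : ZMod N) * c).val ↔ d ∣ c.val := by
  have key : ∀ a : ZMod N, d ∣ a.val ↔ ZMod.castHom hd (ZMod d) a = 0 := fun a => by
    rw [ZMod.castHom_apply, ZMod.cast_eq_val, ZMod.natCast_eq_zero_iff]
  rw [key, key, map_mul]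
  exact (u.isUnit.map (ZMod.castHom hd (ZMod d))).mul_right_eq_zero

theorem misb_row : MISB_s := by
  intro N _ x d χ c hd
  unfold pj
  split_ifs with h
  · congr 1
    refine sum_congr rfl fun u _ => ?_
    have h' := (misb_iff N d hd u c).2 h
    simp only [BB, h', one_dvd]
  · rw [sum_eq_zero, zero_div]
    intro u _
    have h' : ¬d ∣ ((u : ZMod N) * c).val := fun h' => h ((misb_iff N d hd u c).1 h')
    simp only [BB, h', and_false, if_false, mul_zero]

end Pool.Agent.G1A
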