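import Pool.Agent.MP_b5e119_nt.G1A.Defs

namespace Pool.Agent.G1A

open Finset Filter Topology Pool.Agent.G60 Pool.Agent.G42

lemma misa_val {q n : ℕ} [NeZero (q * n)] (c : ZMod (q * n)) :
    ((q : ZMod (q * n)) * c).val = q * (c.val % n) := by
  conv_lhs => rw [← ZMod.natCast_zmod_val c, ← Nat.cast_mul, ZMod.val_natCast]
  exact Nat.mul_mod_mul_left q c.val n

lemma misa_dvd {q n : ℕ} [NeZero (q * n)] {a : ZMod (q * n)} :
    q ∣ a.val ↔ ∃ c, a = (q : ZMod (q * n)) * c := by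
  refine ⟨fun ⟨k, hk⟩ => ⟨k, ?_⟩, fun ⟨c, hc⟩ => hc ▸ misa_val c ▸ dvd_mul_right _ _⟩
  rw [← Nat.cast_mul, ← hk, ZMod.natCast_zmod_val]

lemma misa_eq {q n : ℕ} [NeZero (q * n)] (hq : 0 < q) {b c : ZMod (q * n)} :
    (q : ZMod (q * n)) * c = q * b ↔ c.val % n = b.val % n := by
  rw [← (ZMod.val_injective (q * n)).eq_iff, misa_val, misa_val]
  exact Nat.mul_right_inj hq.ne'

lemma misa_GG {q n x : ℕ} [NeZero (q * n)] (hq : 0 < q) (hx : x < n) (b : ZMod (q * n)) :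
    GG (q * n) q x (q * b) =
      ∑ c : ZMod (q * n) with (q : ZMod (q * n)) * c = q * b, BB (q * n) x 1 c := by
  have h1 : b.val % n < n := Nat.mod_lt _ (by omega)
  have h2 : ((b.val % n : ℕ) : ZMod (q * n)).val = b.val % n :=
    ZMod.val_cast_of_lt (h1.trans_le (Nat.le_mul_of_pos_left n hq))
  rw [sum_eq_single_of_mem ((b.val % n : ℕ) : ZMod (q * n))
    (mem_filter.2 ⟨mem_univ _, (misa_eq hq).2 (by rw [h2, Nat.mod_mod])⟩) fun c hc hne => ?_]
  · simp only [GG, BB, misa_val, h2, Nat.mul_div_cancel_left _ hq, dvd_mul_right, one_dvd,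
      true_and, and_true]
  · refine if_neg fun h => hne (ZMod.val_injective _ ?_)
    rw [h2, ← (misa_eq hq).1 (mem_filter.1 hc).2, Nat.mod_eq_of_lt (by omega)]

lemma misa_pj {q n x : ℕ} [NeZero (q * n)] (hq : 0 < q) (hx : x < n) (χ : Ch (q * n))
    (b : ZMod (q * n)) : pj (q * n) (GG (q * n) q x) χ (q * b) =
      ∑ c : ZMod (q * n) with (q : ZMod (q * n)) * c = q * b, pj (q * n) (BB (q * n) x 1) χ c := by
  simp only [pj]
  rw [← sum_div, sum_comm]
  refine congrArg (· / _) (sum_congr rfl fun u _ => ?_)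
  rw [← mul_sum, mul_left_comm (u : ZMod (q * n)), misa_GG hq hx]
  refine congrArg (_ * ·) (sum_equiv u.mulLeft (fun c => ?_) fun c _ => rfl).symm
  simp only [mem_filter, mem_univ, true_and, Units.mulLeft_apply]
  rw [mul_left_comm _ (u : ZMod (q * n)) c, mul_left_comm _ (u : ZMod (q * n)) b,
    Units.mul_right_inj]

lemma misa_card {q n : ℕ} [NeZero (q * n)] (hq : 0 < q) (b : ZMod (q * n)) :
    #{c : ZMod (q * n) | (q : ZMod (q * n)) * c = q * b} ≤ q := by
  refine le_trans (card_le_card_of_injOn (t := range q) (fun c => c.val / n) (fun c _ => ?_)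
    fun c hc c' hc' h => ?_) (card_range q).le
  · exact mem_coe.2 (mem_range.2 (Nat.div_lt_of_lt_mul (mul_comm q n ▸ ZMod.val_lt c)))
  · refine ZMod.val_injective _ ?_
    rw [← Nat.div_add_mod c.val n, ← Nat.div_add_mod c'.val n, show c.val / n = c'.val / n from h,
      (misa_eq hq).1 (mem_filter.1 hc).2, (misa_eq hq).1 (mem_filter.1 hc').2]

theorem misa_row : MISA_s := by
  rintro _ _ q x χ ⟨n, rfl⟩ hx
  have hq : 0 < q := Nat.pos_of_mul_pos_right (Nat.pos_of_ne_zero (NeZero.ne (q * n)))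
  have hn : x < n := Nat.lt_of_mul_lt_mul_left hx
  have h0 : ∀ a : ZMod (q * n), ¬q ∣ a.val → pj (q * n) (GG (q * n) q x) χ a = 0 := by
    intro a ha
    rw [pj, sum_eq_zero, zero_div]
    intro u _
    rw [GG, if_neg, mul_zero]
    intro h
    obtain ⟨c, hc⟩ := misa_dvd.1 h.1
    refine ha (misa_dvd.2 ⟨(u⁻¹ : (ZMod (q * n))ˣ) * c, ?_⟩)
    rw [mul_left_comm, ← hc, Units.inv_mul_cancel_left]
  refine ⟨h0, fun w hw => ?_⟩
  rw [← sum_fiberwise univ (fun c : ZMod (q * n) => (q : ZMod (q * n)) * c)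
    fun c => w ((q : ZMod (q * n)) * c) * ‖pj (q * n) (BB (q * n) x 1) χ c‖ ^ 2, mul_sum]
  refine sum_le_sum fun a _ => ?_
  by_cases ha : q ∣ a.val
  · obtain ⟨b, rfl⟩ := misa_dvd.1 ha
    rw [sum_congr rfl (g := fun c => w ((q : ZMod (q * n)) * b) *
      ‖pj (q * n) (BB (q * n) x 1) χ c‖ ^ 2) fun c hc => by rw [(mem_filter.1 hc).2], ← mul_sum,
      mul_left_comm]
    refine mul_le_mul_of_nonneg_left ?_ (hw _)
    rw [misa_pj hq hn]
    refine le_trans (pow_le_pow_left₀ (norm_nonneg _) (norm_sum_le _ _) 2)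
      (sq_sum_le_card_mul_sum_sq.trans ?_)
    exact mul_le_mul_of_nonneg_right (Nat.cast_le.2 (misa_card hq b))
      (sum_nonneg fun _ _ => sq_nonneg _)
  · rw [h0 a ha, norm_zero, zero_pow two_ne_zero, mul_zero]
    exact mul_nonneg (Nat.cast_nonneg q) (sum_nonneg fun c _ => mul_nonneg (hw _) (sq_nonneg _))

end Pool.Agent.G1A
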