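import Pool.Agent.MP_b5e119_nt.G1A.Defs

namespace Pool.Agent.G1A

open Finset Filter Topology Pool.Agent.G60 Pool.Agent.G42

theorem miss_dvd {N : ℕ} [NeZero N] {q d : ℕ} (hq : q.Prime) (hd : d.Prime) (hne : d ≠ q)
    (hN : d ∣ N) (c : ZMod N) : d ∣ ((q : ZMod N) * c).val ↔ d ∣ c.val := by
  rw [ZMod.val_mul, ZMod.val_natCast, Nat.mod_mul_mod, Nat.dvd_mod_iff hN]
  exact ((Nat.coprime_primes hd hq).2 hne).dvd_mul_left

theorem miss_pt (J : Finset ℕ) (P : ℕ → ℂ) (n : ℕ) (h : ∀ q ∈ J, ¬q ∣ n → P q = 0) :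
    ‖∑ q ∈ J, P q‖ ^ 2 ≤
      ∑ q ∈ J, (1 + ∑ d ∈ J.erase q, if d ∣ n then (1 : ℝ) else 0) * ‖P q‖ ^ 2 := by
  have e1 : ∑ q ∈ J, P q = ∑ q ∈ J with q ∣ n, P q :=
    (sum_filter_of_ne fun q hq hne => by_contra fun e => hne (h q hq e)).symm
  have e2 : ‖∑ q ∈ J with q ∣ n, P q‖ ^ 2 ≤ (∑ q ∈ J with q ∣ n, ‖P q‖) ^ 2 :=
    pow_le_pow_left₀ (norm_nonneg _) (norm_sum_le _ _) 2
  have e3 : (∑ q ∈ J with q ∣ n, ‖P q‖) ^ 2 ≤
      #{q ∈ J | q ∣ n} * ∑ q ∈ J with q ∣ n, ‖P q‖ ^ 2 := sq_sum_le_card_mul_sum_sq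
  have e4 : ∑ q ∈ J with q ∣ n, ‖P q‖ ^ 2 ≤ ∑ q ∈ J, ‖P q‖ ^ 2 :=
    sum_le_sum_of_subset_of_nonneg (filter_subset _ _) fun _ _ _ => by positivity
  rw [e1]
  refine (e2.trans e3).trans ((mul_le_mul_of_nonneg_left e4 (Nat.cast_nonneg _)).trans ?_)
  rw [mul_sum]
  refine sum_le_sum fun q hq => mul_le_mul_of_nonneg_right ?_ (by positivity)
  rw [card_filter]
  push_cast
  rw [← add_sum_erase J _ hq]
  gcongr
  split_ifs <;> norm_num

theorem miss_row (hL : LIN_s) (hA : MISA_s) (hB : MISB_s) : MISS_s := by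
  intro N _ J x v χ hJ
  have en0 : ∀ F, 0 ≤ en N F χ := fun F => sum_nonneg fun _ _ => by positivity
  have k1 : en N (fun a => ∑ q ∈ J, GG N q x a) χ ≤ ∑ q ∈ J, ∑ a : ZMod N,
      (1 + ∑ d ∈ J.erase q, if d ∣ a.val then (1 : ℝ) else 0) * ‖pj N (GG N q x) χ a‖ ^ 2 := by
    rw [sum_comm, en]
    refine sum_le_sum fun a _ => ?_
    rw [(hL N χ).2.1 J (fun q => GG N q x) a]
    exact miss_pt J (fun q => pj N (GG N q x) χ a) a.val fun q hq e =>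
      (hA N q x χ (hJ q hq).2.1 (hJ q hq).2.2.2).1 a e
  refine k1.trans ?_
  have k2 : ∀ q ∈ J, ∑ a : ZMod N,
      (1 + ∑ d ∈ J.erase q, if d ∣ a.val then (1 : ℝ) else 0) * ‖pj N (GG N q x) χ a‖ ^ 2 ≤
        2 * v * (en N (BB N x 1) χ + ∑ d ∈ J, en N (BB N x d) χ) := fun q hq => by
    obtain ⟨h1, h2, h3, h4⟩ := hJ q hq
    refine ((hA N q x χ h2 h4).2
      (fun a => 1 + ∑ d ∈ J.erase q, if d ∣ a.val then (1 : ℝ) else 0) fun a =>
        add_nonneg zero_le_one (sum_nonneg fun d _ => by split_ifs <;> norm_num)).trans ?_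
    have e : ∑ c : ZMod N, (1 + ∑ d ∈ J.erase q, if d ∣ ((q : ZMod N) * c).val then (1 : ℝ) else 0) *
        ‖pj N (BB N x 1) χ c‖ ^ 2 = en N (BB N x 1) χ + ∑ d ∈ J.erase q, en N (BB N x d) χ := by
      simp only [add_mul, one_mul, sum_add_distrib, sum_mul, en]
      congr 1
      rw [sum_comm]
      refine sum_congr rfl fun d hd => sum_congr rfl fun c _ => ?_
      obtain ⟨hne, hd'⟩ := mem_erase.1 hd
      rw [hB N x d χ c (hJ d hd').2.1]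
      simp only [miss_dvd h1 (hJ d hd').1 hne (hJ d hd').2.1 c]
      split_ifs <;> simp
    rw [e]
    have h5 : (q : ℝ) ≤ 2 * v := by exact_mod_cast h3
    have h6 : ∑ d ∈ J.erase q, en N (BB N x d) χ ≤ ∑ d ∈ J, en N (BB N x d) χ :=
      sum_le_sum_of_subset_of_nonneg (erase_subset _ _) fun _ _ _ => en0 _
    exact mul_le_mul h5 (by linarith) (add_nonneg (en0 _) (sum_nonneg fun _ _ => en0 _))
      (by positivity)
  refine (sum_le_sum k2).trans (le_of_eq ?_)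
  rw [sum_const, nsmul_eq_mul]
  ring

end Pool.Agent.G1A
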