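import Pool.Agent.MP_b5e119_nt.G1A.Defs

namespace Pool.Agent.G1A

open Finset Filter Topology Pool.Agent.G60 Pool.Agent.G42

theorem misw_tau (u : ℕ) (T : Finset ℕ) (hT : ∀ q ∈ T, q.Prime ∧ u ≤ q) :
    #(∏ q ∈ T, q).divisors * u ^ #T ≤ 4 ^ #T * (∏ q ∈ T, q).totient := by
  induction T using Finset.induction_on with
  | empty => simp
  | insert q T hq ih =>
    have h1 := hT q (mem_insert_self _ _)
    have h2 := ih fun a ha => hT a (mem_insert_of_mem ha)
    have hc : q.Coprime (∏ a ∈ T, a) := Nat.Coprime.prod_right fun a ha =>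
      (Nat.coprime_primes h1.1 (hT a (mem_insert_of_mem ha)).1).2 fun e => hq (e ▸ ha)
    rw [prod_insert hq, card_insert_of_notMem hq, hc.card_divisors_mul, Nat.totient_mul hc,
      Nat.totient_prime h1.1, h1.1.divisors, card_pair h1.1.one_lt.ne, pow_succ, pow_succ]
    have h3 : u ≤ 2 * (q - 1) := by have := h1.1.two_le; omega
    calc 2 * #(∏ a ∈ T, a).divisors * (u ^ #T * u)
        = (#(∏ a ∈ T, a).divisors * u ^ #T) * (2 * u) := by ring
      _ ≤ (4 ^ #T * (∏ a ∈ T, a).totient) * (2 * (2 * (q - 1))) :=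
          Nat.mul_le_mul h2 (Nat.mul_le_mul_left 2 h3)
      _ = _ := by ring

theorem misw_en (N : ℕ) [NeZero N] (F : ZMod N → ℂ) (χ : Ch N) : 0 ≤ en N F χ :=
  sum_nonneg fun _ _ => by positivity

theorem misw_row (hAVG : AVG_s) : MISW_s := by
  classical
  intro N _ b u k x d y hS hx hd hy hk
  have hP : ∀ q ∈ BF b u, q.Prime := fun q hq => (mem_filter.1 (mem_filter.1 hq).1).2
  have hcard : #(BF b u) ≤ u := by
    calc #(BF b u) ≤ #(Ico u (2 * u)) :=
          card_le_card fun q hq => mem_Ico.2 ⟨(hS q hq).1, (hS q hq).2.1⟩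
      _ = u := by rw [Nat.card_Ico]; omega
  have hxd : (0 : ℝ) ≤ (x : ℝ) / d := by positivity
  -- one subset
  have h1 : ∀ T ∈ powersetCard k (BF b u), (u : ℝ) ^ k *
      ∑ χ : Ch N with (∏ q ∈ T, q) * χ.conductor ∣ N, en N (BB N x d) χ ≤ 4 ^ k * ((x : ℝ) / d) := by
    intro T hT
    obtain ⟨hT1, hT2⟩ := mem_powersetCard.1 hT
    by_cases hg : (∏ q ∈ T, q) ∣ N
    · have hle : (∏ q ∈ T, q) ≤ (2 * u) ^ k := by
        rw [← hT2]
        exact prod_le_pow_card _ _ _ fun q hq => (hS q (hT1 hq)).2.1.le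
      have h := hAVG N (∏ q ∈ T, q) x d hg
        (Nat.Coprime.prod_left fun q hq => (hS q (hT1 hq)).2.2)
        (lt_of_le_of_lt (Nat.mul_le_mul_right x hle) hx) hd
      have ht := misw_tau u T fun q hq => ⟨hP q (hT1 hq), (hS q (hT1 hq)).1⟩
      rw [hT2] at ht
      have ht' : (#(∏ q ∈ T, q).divisors : ℝ) * (u : ℝ) ^ k ≤
          4 ^ k * ((∏ q ∈ T, q).totient : ℝ) := by exact_mod_cast ht
      have hφ : (0 : ℝ) < ((∏ q ∈ T, q).totient : ℝ) := by
        exact_mod_cast Nat.totient_pos.2 (prod_pos fun q hq => (hP q (hT1 hq)).pos)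
      refine (mul_le_mul_of_nonneg_left h (by positivity)).trans ?_
      rw [← mul_div_assoc, div_le_iff₀ hφ]
      nlinarith [mul_le_mul_of_nonneg_right ht' hxd]
    · rw [sum_eq_zero, mul_zero]
      · positivity
      · intro χ hχ
        exact absurd (Dvd.dvd.trans (Dvd.intro _ rfl) (mem_filter.1 hχ).2) hg
  -- all subsets
  have h2 : (k.factorial : ℝ) * ∑ T ∈ powersetCard k (BF b u),
      ∑ χ : Ch N with (∏ q ∈ T, q) * χ.conductor ∣ N, en N (BB N x d) χ ≤ 4 ^ k * ((x : ℝ) / d) := by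
    by_cases hu : (0 : ℝ) < (u : ℝ) ^ k
    · have h3 := sum_le_sum h1
      rw [← mul_sum, sum_const, card_powersetCard, nsmul_eq_mul] at h3
      have h4 : (k.factorial : ℝ) * ((#(BF b u)).choose k : ℝ) ≤ (u : ℝ) ^ k := by
        have := (Nat.descFactorial_le_pow (#(BF b u)) k).trans (Nat.pow_le_pow_left hcard k)
        rw [Nat.descFactorial_eq_factorial_mul_choose] at this
        exact_mod_cast this
      refine le_of_mul_le_mul_left ?_ hu
      have hf : (0 : ℝ) ≤ (k.factorial : ℝ) := by positivity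
      have h5 : (0 : ℝ) ≤ 4 ^ k * ((x : ℝ) / d) := by positivity
      nlinarith [mul_le_mul_of_nonneg_left h3 hf, mul_le_mul_of_nonneg_right h4 h5]
    · have h0 : (u : ℝ) ^ k = 0 := le_antisymm (not_lt.1 hu) (by positivity)
      obtain ⟨h6, h7⟩ := pow_eq_zero_iff'.1 h0
      have h8 : u = 0 := by exact_mod_cast h6
      rw [powersetCard_eq_empty.2 (by omega), sum_empty, mul_zero]
      positivity
  -- one character
  have h3 : ∀ χ : Ch N, y ≤ #(MS N b u χ) → (y / 2) ^ k * en N (BB N x d) χ ≤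
      (k.factorial : ℝ) * ∑ T ∈ powersetCard k (BF b u),
        if (∏ q ∈ T, q) * χ.conductor ∣ N then en N (BB N x d) χ else 0 := by
    intro χ hχ
    have hsub : powersetCard k (MS N b u χ) ⊆
        (powersetCard k (BF b u)).filter fun T => (∏ q ∈ T, q) * χ.conductor ∣ N := by
      intro T hT
      obtain ⟨hT1, hT2⟩ := mem_powersetCard.1 hT
      refine mem_filter.2 ⟨mem_powersetCard.2 ⟨hT1.trans (filter_subset _ _), hT2⟩, ?_⟩
      obtain ⟨m, hm⟩ := χ.conductor_dvd_level
      have hr : 0 < χ.conductor := Nat.pos_of_ne_zero fun e => NeZero.ne N (by rw [hm, e, zero_mul])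
      have hdv : (∏ q ∈ T, q) ∣ m := by
        refine Finset.prod_primes_dvd m (fun q hq => (hP q (mem_filter.1 (hT1 hq)).1).prime)
          fun q hq => ?_
        have := (mem_filter.1 (hT1 hq)).2
        rw [mul_comm] at this
        exact Nat.dvd_of_mul_dvd_mul_left hr (hm ▸ this)
      calc (∏ q ∈ T, q) * χ.conductor ∣ m * χ.conductor := Nat.mul_dvd_mul_right hdv _
        _ = N := by rw [mul_comm, ← hm]
    rw [← sum_filter, sum_const, nsmul_eq_mul, ← mul_assoc]
    refine mul_le_mul_of_nonneg_right ?_ (misw_en _ _ _)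
    have hc := card_le_card hsub
    rw [card_powersetCard] at hc
    have hkn : k ≤ #(MS N b u χ) := by
      have : (k : ℝ) ≤ #(MS N b u χ) := by
        have : (0 : ℝ) ≤ k := by positivity
        linarith
      exact_mod_cast this
    have h4 := Nat.pow_sub_le_descFactorial (#(MS N b u χ)) k
    rw [Nat.descFactorial_eq_factorial_mul_choose] at h4
    have h5 := h4.trans (Nat.mul_le_mul_left _ hc)
    have h6 : y / 2 ≤ ((#(MS N b u χ) + 1 - k : ℕ) : ℝ) := by
      rw [Nat.cast_sub (by omega)]; push_cast; linarith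
    refine (pow_le_pow_left₀ (by positivity) h6 k).trans ?_
    exact_mod_cast h5
  have h4 : (y / 2) ^ k * ∑ χ : Ch N with y ≤ #(MS N b u χ), en N (BB N x d) χ ≤
      4 ^ k * ((x : ℝ) / d) := by
    refine le_trans ?_ h2
    rw [mul_sum]
    refine (sum_le_sum fun χ hχ => h3 χ (mem_filter.1 hχ).2).trans ?_
    rw [← mul_sum]
    refine mul_le_mul_of_nonneg_left ?_ (by positivity)
    refine (sum_le_sum_of_subset_of_nonneg (filter_subset _ _) fun χ _ _ =>
      sum_nonneg fun T _ => by split_ifs; exacts [misw_en _ _ _, le_rfl]).trans ?_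
    rw [sum_comm]
    exact le_of_eq (sum_congr rfl fun T _ => (sum_filter _ _).symm)
  have hy2 : (0 : ℝ) < (y / 2) ^ k := by positivity
  refine le_of_mul_le_mul_left (h4.trans (le_of_eq ?_)) hy2
  rw [mul_left_comm, ← mul_pow, mul_comm]
  congr 2
  field_simp
  norm_num

end Pool.Agent.G1A
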