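import Pool.Agent.MP_b5e119_nt.G1A.Defs

/-! Row MOMW of campaign h1a. -/

namespace Pool.Agent.G1A

open Finset Filter Topology Pool.Agent.G60 Pool.Agent.G42

theorem momw_orth (p : ℕ) [NeZero p] (a b : ZMod p) :
    ∑ χ : Ch p, (starRingEnd ℂ) (χ b) * χ a =
      if b = a ∧ IsUnit b then (p.totient : ℂ) else 0 := by
  by_cases hb : IsUnit b
  · have h := DirichletCharacter.sum_char_inv_mul_char_eq ℂ (n := p) (a := b) hb a
    simp only [hb, and_true]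
    rw [← h]
    refine Finset.sum_congr rfl fun χ _ => ?_
    have e : (starRingEnd ℂ) (χ b) = χ⁻¹ b := MulChar.star_apply' χ b
    obtain ⟨u, rfl⟩ := hb
    rw [e, MulChar.inv_apply, Ring.inverse_unit, ZMod.inv_coe_unit]
  · simp only [hb, and_false, if_false]
    exact sum_eq_zero fun χ _ => by rw [MulChar.map_nonunit χ hb, map_zero, zero_mul]

open Classical in
theorem momw_key (hK : KER_s) {ι : Type} (N : ℕ) [NeZero N] (T : Finset ι) (pr : ι → ZMod N)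
    (F : ZMod N → ℂ) :
    ((∑ χ : Ch N, ‖∑ t ∈ T, χ (pr t)‖ ^ 2 * en N F χ : ℝ) : ℂ) =
      ∑ z ∈ T ×ˢ T, ∑ u : (ZMod N)ˣ, if pr z.2 * u = pr z.1 ∧ IsUnit (pr z.2 * u) then
        ∑ a, F ((u : ZMod N) * a) * (starRingEnd ℂ) (F a) else 0 := by
  have p1 : (N.totient : ℂ) ≠ 0 := by
    exact_mod_cast (Nat.totient_pos.2 (Nat.pos_of_ne_zero (NeZero.ne N))).ne'
  have h1 : ∀ χ : Ch N, ((‖∑ t ∈ T, χ (pr t)‖ ^ 2 * en N F χ : ℝ) : ℂ) =
      ∑ z ∈ T ×ˢ T, ∑ u : (ZMod N)ˣ, ((starRingEnd ℂ) (χ (pr z.2 * u)) * χ (pr z.1)) *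
        ((∑ a, F ((u : ZMod N) * a) * (starRingEnd ℂ) (F a)) / (N.totient : ℂ)) := fun χ => by
    rw [Complex.ofReal_mul, hK N F χ, ← Complex.normSq_eq_norm_sq, ← Complex.mul_conj, map_sum,
      sum_mul_sum, ← sum_product', sum_mul]
    refine sum_congr rfl fun z _ => ?_
    rw [sum_div, mul_sum]
    refine sum_congr rfl fun u _ => ?_
    rw [map_mul χ, map_mul (starRingEnd ℂ)]
    ring
  rw [Complex.ofReal_sum]
  simp only [h1]
  rw [sum_comm]
  refine sum_congr rfl fun z _ => ?_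
  rw [sum_comm]
  refine sum_congr rfl fun u _ => ?_
  rw [← sum_mul, momw_orth]
  split_ifs
  · field_simp
  · rw [zero_mul]

open Classical in
theorem momw_row (hK : KER_s) (hG : GCD_s) : MOMW_s := by
  intro N hN S P k x d hS hx hd
  have h1 : ∀ χ : Ch N, ‖∑ q ∈ S, χ (q : ZMod N)‖ ^ (2 * k) =
      ‖∑ t ∈ Fintype.piFinset (fun _ : Fin k => S), χ ((∏ i, t i : ℕ) : ZMod N)‖ ^ 2 := fun χ => by
    have h2 : ∑ t ∈ Fintype.piFinset (fun _ : Fin k => S), χ ((∏ i, t i : ℕ) : ZMod N) =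
        (∑ q ∈ S, χ (q : ZMod N)) ^ k := by
      rw [sum_pow']
      refine sum_congr rfl fun t _ => ?_
      rw [Nat.cast_prod, map_prod]
    rw [h2, norm_pow, ← pow_mul, mul_comm k 2]
  simp only [h1]
  have key := momw_key hK N (Fintype.piFinset (fun _ : Fin k => S))
    (fun t => ((∏ i, t i : ℕ) : ZMod N)) (BB N x d)
  have gc := hG S P k (x / d) hS
  have hT : ∀ t ∈ Fintype.piFinset (fun _ : Fin k => S), ∀ m, m ≤ x → (∏ i, t i) * m < N := by
    intro t ht m hm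
    refine lt_of_le_of_lt (Nat.mul_le_mul ?_ hm) hx
    have := prod_le_pow_card univ (fun i => t i) (2 * P) fun i _ =>
      (hS _ (Fintype.mem_piFinset.1 ht i)).2.2.le
    simpa using this
  generalize Fintype.piFinset (fun _ : Fin k => S) = T at key gc hT ⊢
  let sp : ZMod N → Prop := fun a => 1 ≤ a.val ∧ a.val ≤ x ∧ d ∣ a.val
  have hB : ∀ a, ‖BB N x d a‖ ≤ if sp a then 1 else 0 := fun a => by
    unfold BB
    by_cases h : sp a
    · rw [if_pos h, if_pos h]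
      simp [lam]
    · rw [if_neg h, if_neg h, norm_zero]
  let A : Finset (((Fin k → ℕ) × (Fin k → ℕ)) × ((ZMod N)ˣ × ZMod N)) :=
    {w ∈ (T ×ˢ T) ×ˢ (univ ×ˢ univ) |
      (((∏ i, w.1.2 i : ℕ) : ZMod N) * w.2.1 = ((∏ i, w.1.1 i : ℕ) : ZMod N) ∧
        IsUnit (((∏ i, w.1.2 i : ℕ) : ZMod N) * w.2.1)) ∧ sp ((w.2.1 : ZMod N) * w.2.2) ∧ sp w.2.2}
  have k2 := congrArg (fun w : ℂ => ‖w‖) key
  simp only [Complex.norm_real] at k2
  have k3 : ∑ χ : Ch N, ‖∑ t ∈ T, χ ((∏ i, t i : ℕ) : ZMod N)‖ ^ 2 * en N (BB N x d) χ ≤ #A := by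
    refine (le_abs_self _).trans ?_
    rw [← Real.norm_eq_abs, k2, card_filter, Nat.cast_sum, sum_product (T ×ˢ T)]
    refine (norm_sum_le _ _).trans (sum_le_sum fun z _ => ?_)
    rw [sum_product]
    refine (norm_sum_le _ _).trans (sum_le_sum fun u _ => ?_)
    split_ifs with h
    · refine (norm_sum_le _ _).trans (sum_le_sum fun a _ => ?_)
      rw [norm_mul, Complex.norm_conj]
      refine (mul_le_mul (hB _) (hB _) (norm_nonneg _) (by split_ifs <;> norm_num)).trans ?_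
      by_cases h3 : sp ((u : ZMod N) * a)
      · by_cases h4 : sp a
        · rw [if_pos h3, if_pos h4, if_pos ⟨h, h3, h4⟩]
          norm_num
        · rw [if_neg h4, mul_zero]
          exact Nat.cast_nonneg _
      · rw [if_neg h3, zero_mul]
        exact Nat.cast_nonneg _
    · rw [norm_zero]
      exact sum_nonneg fun _ _ => Nat.cast_nonneg _
  have k4 : #A ≤ #{z ∈ (T ×ˢ Icc 1 (x / d)) ×ˢ (T ×ˢ Icc 1 (x / d)) |
      (∏ i, z.1.1 i) * z.1.2 = (∏ i, z.2.1 i) * z.2.2} := by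
    have hm : ∀ a, sp a → a.val / d ∈ Icc 1 (x / d) := fun a h =>
      mem_Icc.2 ⟨Nat.div_pos (Nat.le_of_dvd h.1 h.2.2) hd, Nat.div_le_div_right h.2.1⟩
    refine card_le_card_of_injOn
      (fun w => ((w.1.1, w.2.2.val / d), (w.1.2, ((w.2.1 : ZMod N) * w.2.2).val / d))) ?_ ?_
    · rintro ⟨⟨t, t'⟩, u, a⟩ hw
      obtain ⟨h2, ⟨h3, _⟩, h5, h6⟩ := mem_filter.1 (mem_coe.1 hw)
      obtain ⟨h7, h8⟩ := mem_product.1 (mem_product.1 h2).1
      refine mem_coe.2 (mem_filter.2 ⟨mem_product.2 ⟨mem_product.2 ⟨h7, hm _ h6⟩,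
        mem_product.2 ⟨h8, hm _ h5⟩⟩, ?_⟩)
      have e1 : (∏ i, t i) * a.val = (∏ i, t' i) * ((u : ZMod N) * a).val := by
        have e2 : (((∏ i, t i) * a.val : ℕ) : ZMod N) =
            (((∏ i, t' i) * ((u : ZMod N) * a).val : ℕ) : ZMod N) := by
          rw [Nat.cast_mul, Nat.cast_mul, ZMod.natCast_zmod_val, ZMod.natCast_zmod_val,
            ← mul_assoc]
          exact congrArg (· * a) h3.symm
        rwa [ZMod.natCast_eq_natCast_iff', Nat.mod_eq_of_lt (hT _ h7 _ h6.2.1),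
          Nat.mod_eq_of_lt (hT _ h8 _ h5.2.1)] at e2
      change (∏ i, t i) * (a.val / d) = (∏ i, t' i) * (((u : ZMod N) * a).val / d)
      rw [← Nat.mul_div_assoc _ h6.2.2, ← Nat.mul_div_assoc _ h5.2.2, e1]
    · rintro ⟨⟨t, t'⟩, u, a⟩ hw ⟨⟨s, s'⟩, v, b⟩ hw' e
      obtain ⟨_, ⟨h3, h4⟩, _, h6⟩ := mem_filter.1 (mem_coe.1 hw)
      obtain ⟨_, ⟨h3', _⟩, _, h6'⟩ := mem_filter.1 (mem_coe.1 hw')
      simp only [Prod.mk.injEq] at e
      obtain ⟨⟨rfl, e2⟩, rfl, _⟩ := e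
      have e3 : a = b := by
        apply ZMod.val_injective
        rw [← Nat.div_mul_cancel h6.2.2, ← Nat.div_mul_cancel h6'.2.2]
        exact congrArg (· * d) e2
      have e4 : u = v :=
        Units.ext ((isUnit_of_mul_isUnit_left h4).mul_left_cancel (h3.trans h3'.symm))
      rw [e3, e4]
  have k5 : (#A : ℝ) ≤ ((x / d : ℕ) : ℝ) * (P : ℝ) ^ k * ((k : ℝ) + 1) ^ k := by
    exact_mod_cast k4.trans gc
  refine k3.trans (k5.trans ?_)
  gcongr
  exact Nat.cast_div_le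

end Pool.Agent.G1A
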