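import Pool.Agent.MP_b5e119_nt.G1A.Defs

namespace Pool.Agent.G1A

open Finset Filter Topology Pool.Agent.G60 Pool.Agent.G42

theorem muw_ff (N : ℕ) (a : ZMod N) : ff N a = 0 ∨ ff N a = 1 ∨ ff N a = -1 := by
  unfold ff lam
  split_ifs
  · exact Or.inl rfl
  · exact Or.inr (neg_one_pow_eq_or ℤ _)

theorem muw_pt (N : ℕ) (a b : ZMod N) :
    ‖1 * fC N b + fC N a‖ ^ 2 ≤ if ff N b ≠ -1 * ff N a then (4 : ℝ) else 0 := by
  unfold fC
  split_ifs with h
  · have h1 : ∀ c : ZMod N, ‖(ff N c : ℂ)‖ ≤ 1 := by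
      intro c
      rcases muw_ff N c with h | h | h <;> rw [h] <;> simp
    have h2 : ‖1 * (ff N b : ℂ) + (ff N a : ℂ)‖ ≤ 2 := by
      rw [one_mul]
      have h3 := norm_add_le (ff N b : ℂ) (ff N a : ℂ)
      linarith [h1 a, h1 b]
    have h4 := norm_nonneg (1 * (ff N b : ℂ) + (ff N a : ℂ))
    nlinarith
  · rw [not_not] at h
    rw [h]
    simp

theorem muw_unit (N : ℕ) [NeZero N] (F : ZMod N → ℂ) (χ : Ch N) (w : (ZMod N)ˣ) (a : ZMod N) :
    pj N (fun a => F ((w : ZMod N) * a)) χ a = χ (w : ZMod N) * pj N F χ a := by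
  unfold pj
  have h1 := Equiv.sum_comp (Equiv.mulRight w)
    (fun u : (ZMod N)ˣ => (starRingEnd ℂ) (χ (u : ZMod N)) * F ((u : ZMod N) * a))
  have h2 : χ (w : ZMod N) * (starRingEnd ℂ) (χ (w : ZMod N)) = 1 := by
    rw [Complex.mul_conj, Complex.normSq_eq_norm_sq, DirichletCharacter.unit_norm_eq_one χ w]
    simp
  rw [← h1, ← mul_div_assoc, mul_sum]
  congr 1
  refine sum_congr rfl fun u _ => ?_
  rw [Equiv.coe_mulRight]
  have h3 : ((u * w : (ZMod N)ˣ) : ZMod N) * a = (w : ZMod N) * ((u : ZMod N) * a) := by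
    rw [Units.val_mul]
    ring
  simp only [h3]
  simp only [Units.val_mul, map_mul]
  linear_combination
    (-((starRingEnd ℂ) (χ (u : ZMod N)) * F ((w : ZMod N) * ((u : ZMod N) * a)))) * h2

theorem muw_row (hP : PARS_s) (hL : LIN_s) (hK : KILL_s) : MUW_s := by
  intro N _ q hq
  have hl : lam q = -1 := by
    unfold lam
    rw [ArithmeticFunction.cardFactors_apply_prime hq, pow_one]
  have h1 : ∑ a : ZMod N, ‖1 * fC N ((q : ZMod N) * a) + fC N a‖ ^ 2 ≤ 4 * (bad N q : ℝ) := by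
    refine (sum_le_sum fun a _ => muw_pt N a ((q : ZMod N) * a)).trans ?_
    unfold bad
    rw [hl, ← sum_filter, sum_const, nsmul_eq_mul, mul_comm]
  refine le_trans ?_ h1
  rw [← hP N (fun a => 1 * fC N ((q : ZMod N) * a) + fC N a)]
  refine sum_le_sum fun χ _ => ?_
  have h2 := (hL N χ).1 (fun a => fC N ((q : ZMod N) * a)) (fC N) 1
  unfold cost
  split_ifs with h3 h4
  · rw [mul_zero]
    exact sum_nonneg fun a _ => sq_nonneg _
  · rw [mul_one]
    unfold en
    refine le_of_eq (sum_congr rfl fun a _ => ?_)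
    rw [h2 a, (hK N q χ (fC N) h3 h4).2 a, mul_zero, zero_add]
  · have h5 : q.Coprime N := (Nat.Prime.coprime_iff_not_dvd hq).2 h3
    have h6 := muw_unit N (fC N) χ (ZMod.unitOfCoprime q h5)
    rw [ZMod.coe_unitOfCoprime] at h6
    unfold en
    rw [sum_mul]
    refine le_of_eq (sum_congr rfl fun a _ => ?_)
    rw [h2 a, h6 a, ← mul_pow, ← norm_mul]
    congr 2
    ring

end Pool.Agent.G1A
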