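import Pool.Agent.MP_b5e119_nt.G1A.Defs

/-! Row OUT of campaign h1a. -/

namespace Pool.Agent.G1A

open Finset Filter Topology Pool.Agent.G60 Pool.Agent.G42

theorem out_bv (hB : BLK_s) {b v : ℕ} (hb : 4 ≤ b) (hv : v ∈ BV b) :
    2 ^ b ^ 2 ≤ 2 * v ∧ v < 2 ^ b ^ 4 ∧ ∀ q ∈ BF b v, q.Prime ∧ v ≤ q ∧ q < 2 * v := by
  obtain ⟨q, hq, rfl⟩ := mem_image.1 hv
  obtain ⟨h1, -, h3, -⟩ := (hB b hb).2 q hq
  refine ⟨h3, h1.trans_lt (mem_Ico.1 (mem_filter.1 hq).1).2, fun r hr => ?_⟩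
  obtain ⟨hr, e⟩ := mem_filter.1 hr
  obtain ⟨g1, -, -, g4⟩ := (hB b hb).2 r hr
  rw [e] at g1 g4
  exact ⟨(mem_filter.1 hr).2, g1, g4⟩

theorem out_en (N : ℕ) [NeZero N] (F : ZMod N → ℂ) (χ : Ch N) : 0 ≤ en N F χ :=
  sum_nonneg fun _ _ => by positivity

theorem out_pow {u α : ℝ} (u0 : 0 < u) {k : ℕ} (k7 : 7 ≤ k) :
    (8 / u ^ (1 - 2 * α)) ^ k ≤ u ^ (-(2 * (k : ℝ) * (1 - α))) * (u ^ k * ((k : ℝ) + 1) ^ k) := by
  have e1 : u ^ (-(2 * (k : ℝ) * (1 - α))) * u ^ k = ((u ^ (1 - 2 * α)) ^ k)⁻¹ := by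
    rw [← Real.rpow_natCast u k, ← Real.rpow_add u0, ← Real.rpow_natCast, ← Real.rpow_mul u0.le,
      ← Real.rpow_neg u0.le]
    congr 1
    ring
  have k8 : (8 : ℝ) ≤ (k : ℝ) + 1 := by exact_mod_cast (by omega : 8 ≤ k + 1)
  rw [← mul_assoc, e1, div_pow, div_eq_inv_mul]
  exact mul_le_mul_of_nonneg_left (pow_le_pow_left₀ (by norm_num) k8 k) (by positivity)

open Classical in
theorem out_u (hB : BLK_s) (hM : MOMW_s) (hI : MISW_s) (hA : STA_s) (N : ℕ) [NeZero N]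
    (c u v d k : ℕ) (α α' : ℝ) (hc : 4 ≤ c) (hα : 0 ≤ α) (hα' : α + 3 / c ≤ α') (hu : u ∈ BV c)
    (hv : v ∈ BV (2 ^ c)) (hd : d ∈ insert 1 (BF (2 ^ c) v)) (k1 : (2 * u) ^ k ≤ v)
    (k2 : v < (2 * u) ^ (k + 1)) (k7 : 7 ≤ k) (ky : 2 * (k : ℝ) ≤ (u : ℝ) ^ (1 - 2 * α))
    (c4 : c ^ 4 ≤ (2 ^ c) ^ 2) :
    (v : ℝ) ^ (2 - 2 * α') * ∑ χ : Ch N, ((u : ℝ) ^ (-(2 * (k : ℝ) * (1 - α))) *
      (‖QQ N c u χ‖ ^ (2 * k) * en N (BB N (XV N (2 ^ c) v) d) χ) +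
      if (u : ℝ) ^ (1 - 2 * α) ≤ #(MS N c u χ) then en N (BB N (XV N (2 ^ c) v) d) χ else 0) ≤
        4 * 2 ^ c ^ 4 * (v : ℝ) ^ (-(1 / (c : ℝ))) * N / d := by
  have hb : 4 ≤ 2 ^ c := hc.trans Nat.lt_two_pow_self.le
  obtain ⟨u1, u2, u3⟩ := out_bv hB hc hu
  obtain ⟨v1, v2, v3⟩ := out_bv hB hb hv
  have u0 : 0 < u := by have := Nat.two_pow_pos (c ^ 2); omega
  have v0 : 0 < v := by have := Nat.two_pow_pos ((2 ^ c) ^ 2); omega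
  have hp : 0 < N := Nat.pos_of_ne_zero (NeZero.ne N)
  have d0 : 0 < d := by
    rcases mem_insert.1 hd with rfl | h
    · exact one_pos
    · exact (v3 d h).1.pos
  have dc : ∀ q ∈ BF c u, q.Coprime d := by
    intro q hq
    rcases mem_insert.1 hd with rfl | h
    · exact Nat.coprime_one_right q
    · refine (Nat.coprime_primes (u3 q hq).1 (v3 d h).1).2 (ne_of_lt ?_)
      have a1 : q < 2 ^ c ^ 4 := (mem_Ico.1 (mem_filter.1 (mem_filter.1 hq).1).1).2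
      have a2 : 2 ^ (2 ^ c) ^ 2 ≤ d := (mem_Ico.1 (mem_filter.1 (mem_filter.1 h).1).1).1
      exact a1.trans_le ((Nat.pow_le_pow_right two_pos c4).trans a2)
  have x1 : XV N (2 ^ c) v * v ≤ N - 1 := by
    refine Nat.le_of_mul_le_mul_left ?_ (by omega : 0 < 2 ^ c)
    calc 2 ^ c * (XV N (2 ^ c) v * v) = XV N (2 ^ c) v * (2 ^ c * v) := by ring
      _ ≤ (2 ^ c - 1) * (N - 1) := Nat.div_mul_le_self _ _
      _ ≤ _ := Nat.mul_le_mul_right _ (Nat.sub_le _ _)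
  obtain ⟨x, hx⟩ : ∃ x, x = XV N (2 ^ c) v := ⟨_, rfl⟩
  rw [← hx] at x1 ⊢
  have x2 : (2 * u) ^ k * x < N := by
    have := Nat.mul_le_mul_right x k1
    rw [mul_comm v x] at this
    omega
  have uP : (0 : ℝ) < u := by exact_mod_cast u0
  have vR : (0 : ℝ) < v := by exact_mod_cast v0
  have dR : (0 : ℝ) < d := by exact_mod_cast d0
  have m := hM N (BF c u) u k x d u3 x2 d0
  have m' := hI N c u k x d ((u : ℝ) ^ (1 - 2 * α))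
    (fun q hq => ⟨(u3 q hq).2.1, (u3 q hq).2.2, dc q hq⟩) x2 d0 (by positivity) ky
  have a := hA c u v k α α' (by omega) u1 k1 k2 v2 hα hα'
  have x3 : (x : ℝ) / d ≤ (N : ℝ) / d / v := by
    rw [le_div_iff₀ vR, div_mul_eq_mul_div]
    refine div_le_div_of_nonneg_right ?_ dR.le
    have : x * v ≤ N := by omega
    exact_mod_cast this
  have uR : (u : ℝ) ≤ 2 ^ c ^ 4 := by exact_mod_cast u2.le
  obtain ⟨w, hw⟩ : ∃ w : ℝ, w = (u : ℝ) ^ (-(2 * (k : ℝ) * (1 - α))) := ⟨_, rfl⟩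
  obtain ⟨z, hz⟩ : ∃ z : ℝ, z = (u : ℝ) ^ k * ((k : ℝ) + 1) ^ k := ⟨_, rfl⟩
  have w0 : 0 ≤ w := by rw [hw]; positivity
  have z0 : 0 ≤ z := by rw [hz]; positivity
  have p1 := out_pow (α := α) uP k7
  rw [← hw, ← hz] at p1 a
  rw [← hw, sum_add_distrib, ← mul_sum, ← sum_filter]
  have s1 : w * ∑ χ : Ch N, ‖QQ N c u χ‖ ^ (2 * k) * en N (BB N x d) χ ≤
      (N : ℝ) / d / v * (w * z) := by
    calc _ ≤ w * ((x : ℝ) / d * z) :=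
          mul_le_mul_of_nonneg_left (m.trans (le_of_eq (by rw [hz]; ring))) w0
      _ = (x : ℝ) / d * (w * z) := by ring
      _ ≤ _ := mul_le_mul_of_nonneg_right x3 (mul_nonneg w0 z0)
  have s2 := m'.trans (mul_le_mul x3 p1 (by positivity) (by positivity))
  calc _ ≤ (v : ℝ) ^ (2 - 2 * α') * ((N : ℝ) / d / v * (w * z) + (N : ℝ) / d / v * (w * z)) :=
        mul_le_mul_of_nonneg_left (add_le_add s1 s2) (by positivity)
    _ = 2 * ((v : ℝ) ^ (2 - 2 * α') * w * (z / v)) * ((N : ℝ) / d) := by ring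
    _ ≤ 2 * (2 * u * (v : ℝ) ^ (-(1 / (c : ℝ)))) * ((N : ℝ) / d) := by gcongr
    _ ≤ 2 * (2 * 2 ^ c ^ 4 * (v : ℝ) ^ (-(1 / (c : ℝ)))) * ((N : ℝ) / d) := by gcongr
    _ = _ := by ring

open Classical in
theorem out_row (hB : BLK_s) (hM : MOMW_s) (hI : MISW_s) (hA : STA_s) (hC : STC_s) : OUT_s := by
  obtain ⟨c₀, hC⟩ := hC
  refine ⟨c₀ + 4, fun N _ c v d α α' hc hv hd hα hα4 hα' => ?_⟩
  have hc4 : 4 ≤ c := by omega
  have hb : 4 ≤ 2 ^ c := hc4.trans Nat.lt_two_pow_self.le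
  obtain ⟨v1, v2, -⟩ := out_bv hB hb hv
  have v0 : 0 < v := by have := Nat.two_pow_pos ((2 ^ c) ^ 2); omega
  obtain ⟨F, hF⟩ : ∃ F : ℕ → Ch N → ℝ, F = fun (u : ℕ) (χ : Ch N) =>
      (u : ℝ) ^ (-(2 * (Nat.log (2 * u) v : ℝ) * (1 - α))) *
        (‖QQ N c u χ‖ ^ (2 * Nat.log (2 * u) v) * en N (BB N (XV N (2 ^ c) v) d) χ) +
      if (u : ℝ) ^ (1 - 2 * α) ≤ #(MS N c u χ) then en N (BB N (XV N (2 ^ c) v) d) χ else 0 :=
    ⟨_, rfl⟩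
  have E0 : ∀ χ : Ch N, 0 ≤ en N (BB N (XV N (2 ^ c) v) d) χ := fun χ => out_en N _ χ
  have F1 : ∀ (u : ℕ) (χ : Ch N), 0 ≤ (u : ℝ) ^ (-(2 * (Nat.log (2 * u) v : ℝ) * (1 - α))) *
      (‖QQ N c u χ‖ ^ (2 * Nat.log (2 * u) v) * en N (BB N (XV N (2 ^ c) v) d) χ) :=
    fun u χ => mul_nonneg (by positivity) (mul_nonneg (by positivity) (E0 χ))
  have F2 : ∀ (u : ℕ) (χ : Ch N), 0 ≤ (if (u : ℝ) ^ (1 - 2 * α) ≤ #(MS N c u χ) then
      en N (BB N (XV N (2 ^ c) v) d) χ else 0) := fun u χ => by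
    split_ifs
    · exact E0 χ
    · exact le_rfl
  have F0 : ∀ u χ, 0 ≤ F u χ := fun u χ => by rw [hF]; exact add_nonneg (F1 u χ) (F2 u χ)
  have h1 : ∀ χ ∈ (Sw N c α)ᶜ, en N (BB N (XV N (2 ^ c) v) d) χ ≤ ∑ u ∈ BV c, F u χ := by
    intro χ hχ
    have g2 := mem_compl.1 hχ
    obtain ⟨u, hu, g4⟩ : ∃ u ∈ BV c, (u : ℝ) ^ (1 - α) < ‖QQ N c u χ‖ ∨
        (u : ℝ) ^ (1 - 2 * α) < #(MS N c u χ) := by
      by_contra h
      exact g2 (mem_filter.2 ⟨mem_filter.2 ⟨mem_univ _, fun u hu =>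
        not_lt.1 fun g => h ⟨u, hu, Or.inl g⟩⟩, fun u hu => not_lt.1 fun g => h ⟨u, hu, Or.inr g⟩⟩)
    refine le_trans ?_ (single_le_sum (f := fun u => F u χ) (fun u _ => F0 u χ) hu)
    simp only [hF]
    rcases g4 with g4 | g4
    · refine le_trans ?_ (le_add_of_nonneg_right (F2 u χ))
      have u0 : (0 : ℝ) < u := by
        have := (out_bv hB hc4 hu).1
        have := Nat.two_pow_pos (c ^ 2)
        exact_mod_cast (by omega : 0 < u)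
      obtain ⟨k, hk⟩ : ∃ k, k = Nat.log (2 * u) v := ⟨_, rfl⟩
      have g6 : 1 ≤ (u : ℝ) ^ (-(2 * (k : ℝ) * (1 - α))) * ‖QQ N c u χ‖ ^ (2 * k) := by
        have a1 := pow_le_pow_left₀ (by positivity) g4.le (2 * k)
        have a2 : ((u : ℝ) ^ (1 - α)) ^ (2 * k) = (u : ℝ) ^ (2 * (k : ℝ) * (1 - α)) := by
          rw [← Real.rpow_natCast, ← Real.rpow_mul u0.le]
          congr 1
          push_cast
          ring
        rw [a2] at a1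
        rw [Real.rpow_neg u0.le, ← div_eq_inv_mul, one_le_div (by positivity)]
        exact a1
      rw [← hk, ← mul_assoc]
      exact le_mul_of_one_le_left (E0 χ) g6
    · rw [if_pos g4.le]
      exact le_add_of_nonneg_left (F1 u χ)
  have h2 : ∑ χ ∈ (Sw N c α)ᶜ, ∑ u ∈ BV c, F u χ ≤ ∑ χ, ∑ u ∈ BV c, F u χ :=
    sum_le_sum_of_subset_of_nonneg (subset_univ _) fun χ _ _ => sum_nonneg fun u _ => F0 u χ
  refine (mul_le_mul_of_nonneg_left ((sum_le_sum h1).trans h2) (by positivity)).trans ?_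
  rw [sum_comm, mul_sum]
  have h3 : ∀ u ∈ BV c, (v : ℝ) ^ (2 - 2 * α') * ∑ χ, F u χ ≤
      4 * 2 ^ c ^ 4 * (v : ℝ) ^ (-(1 / (c : ℝ))) * N / d := fun u hu => by
    obtain ⟨u1, u2, -⟩ := out_bv hB hc4 hu
    have u0 : 1 < 2 * u := lt_of_lt_of_le (Nat.one_lt_two_pow (by positivity)) u1
    have k1 : (2 * u) ^ Nat.log (2 * u) v ≤ v := Nat.pow_log_le_self _ v0.ne'
    have k2 : v < (2 * u) ^ (Nat.log (2 * u) v + 1) := Nat.lt_pow_succ_log_self u0 v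
    obtain ⟨k7, ky, c4⟩ := hC c u v _ α (by omega) u1 u2 v1 v2 k1 k2 hα4
    rw [hF]
    exact out_u hB hM hI hA N c u v d _ α α' hc4 hα hα' hu hv hd k1 k2 k7 ky c4
  refine (sum_le_card_nsmul _ _ _ h3).trans ?_
  rw [nsmul_eq_mul]
  have n1 : (#(BV c) : ℝ) ≤ 4 * (c : ℝ) ^ 5 := by exact_mod_cast (hB c hc4).1
  refine (mul_le_mul_of_nonneg_right n1 (by positivity)).trans (le_of_eq ?_)
  ring

end Pool.Agent.G1A
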