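import Pool.Agent.MP_b5e119_nt.G1A.Defs

namespace Pool.Agent.G1A

open Finset Filter Topology Pool.Agent.G60 Pool.Agent.G42

theorem pars_orth (N : ℕ) [NeZero N] (u : (ZMod N)ˣ) :
    ∑ χ : Ch N, (starRingEnd ℂ) (χ (u : ZMod N)) = if u = 1 then (N.totient : ℂ) else 0 := by
  rw [← map_sum, DirichletCharacter.sum_characters_eq]
  by_cases h : u = 1
  · simp [h]
  · have : (u : ZMod N) ≠ 1 := fun e => h (Units.ext e)
    simp [h, this]

theorem pars_row (hK : KER_s) : PARS_s := by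
  intro N _ F
  have h0 : (N.totient : ℂ) ≠ 0 := by
    exact_mod_cast (Nat.totient_pos.mpr (NeZero.pos N)).ne'
  have : ((∑ χ : Ch N, en N F χ : ℝ) : ℂ) = ((∑ a, ‖F a‖ ^ 2 : ℝ) : ℂ) := by
    push_cast
    simp only [hK N F]
    rw [← sum_div, sum_comm]
    simp only [← sum_mul, pars_orth, ite_mul, zero_mul, sum_ite_eq', mem_univ, if_true,
      Units.val_one, one_mul]
    rw [mul_div_cancel_left₀ _ h0]
    exact sum_congr rfl fun a _ => Complex.mul_conj' _
  exact_mod_cast this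

end Pool.Agent.G1A
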