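import Pool.Agent.MP_b5e119_nt.G1A.Defs

/-! Row STC of campaign h1a: sizes of the exponent between two scales. -/

namespace Pool.Agent.G1A

open Finset Filter Topology Pool.Agent.G60 Pool.Agent.G42

theorem stc_pow (c : ℕ) (hc : 9 ≤ c) : 3 * c ^ 2 ≤ 2 ^ c := by
  induction c, hc using Nat.le_induction with
  | base => norm_num
  | succ n hn ih => rw [pow_succ 2 n]; nlinarith

theorem stc_row : STC_s := by
  refine ⟨9, fun c u v k α hc h1 h2 h3 h4 h5 h6 hα => ?_⟩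
  have hp := stc_pow c hc
  have hq : 9 * c ^ 4 ≤ (2 ^ c) ^ 2 := by
    calc 9 * c ^ 4 = (3 * c ^ 2) ^ 2 := by ring
      _ ≤ _ := Nat.pow_le_pow_left hp 2
  have hc4 : 9 ^ 4 ≤ c ^ 4 := Nat.pow_le_pow_left hc 4
  have hu : 2 ^ (8 * c + 2) ≤ u := by
    have a : 2 ^ (8 * c + 2 + 1) ≤ 2 ^ c ^ 2 := Nat.pow_le_pow_right (by norm_num) (by nlinarith)
    rw [pow_succ] at a
    omega
  have hu1 : 1 ≤ u := le_trans Nat.one_le_two_pow hu
  refine ⟨?_, ?_, by omega⟩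
  · by_contra hk
    have a1 : (2 * u) ^ (k + 1) ≤ (2 * u) ^ 7 := Nat.pow_le_pow_right (by omega) (by omega)
    have a2 : (2 * u) ^ 7 ≤ (2 ^ (c ^ 4 + 1)) ^ 7 :=
      Nat.pow_le_pow_left (by rw [pow_succ 2]; omega) 7
    rw [← pow_mul] at a2
    have a3 : 2 ^ (2 ^ c) ^ 2 < 2 ^ ((c ^ 4 + 1) * 7 + 1) := by
      rw [pow_succ 2 ((c ^ 4 + 1) * 7)]; omega
    have a4 := (Nat.pow_lt_pow_iff_right (by norm_num : 1 < 2)).1 a3
    omega
  · have a1 : (2 ^ c ^ 2) ^ k ≤ (2 * u) ^ k := Nat.pow_le_pow_left h1 k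
    rw [← pow_mul] at a1
    have a2 := (Nat.pow_lt_pow_iff_right (by norm_num : 1 < 2)).1 (lt_of_le_of_lt (a1.trans h5) h4)
    have a3 : k ≤ (2 ^ c) ^ 4 :=
      le_trans (Nat.le_mul_of_pos_left k (by positivity)) a2.le
    have a4 : (2 * k) ^ 2 ≤ u := by
      calc (2 * k) ^ 2 ≤ (2 * (2 ^ c) ^ 4) ^ 2 := Nat.pow_le_pow_left (by omega) 2
        _ = 2 ^ (8 * c + 2) := by ring
        _ ≤ u := hu
    have a5 : (2 * (k : ℝ)) ^ 2 ≤ u := by exact_mod_cast a4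
    have a6 : (1 : ℝ) ≤ u := by exact_mod_cast hu1
    calc 2 * (k : ℝ) ≤ √(u : ℝ) := Real.le_sqrt_of_sq_le a5
      _ = (u : ℝ) ^ (1 / 2 : ℝ) := Real.sqrt_eq_rpow _
      _ ≤ _ := Real.rpow_le_rpow_of_exponent_le a6 (by linarith)

end Pool.Agent.G1A
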