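import Pool.Agent.MP_b5e119_nt.G1A.Defs

/-! Row STEPW of campaign h1a: from one scale of primes to the next, over all residues. -/

namespace Pool.Agent.G1A

open Finset Filter Topology Pool.Agent.G60 Pool.Agent.G42

theorem stepw_bv (hB : BLK_s) {b v : ℕ} (hb : 4 ≤ b) (hv : v ∈ BV b) :
    2 ^ b ^ 2 ≤ 2 * v ∧ ∀ q ∈ BF b v, v ≤ q ∧ q < 2 * v := by
  obtain ⟨q, hq, rfl⟩ := mem_image.1 hv
  obtain ⟨-, -, h3, -⟩ := (hB b hb).2 q hq
  refine ⟨h3, fun r hr => ?_⟩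
  obtain ⟨hr, e⟩ := mem_filter.1 hr
  obtain ⟨g1, -, -, g4⟩ := (hB b hb).2 r hr
  rw [e] at g1 g4
  exact ⟨g1, g4⟩

theorem stepw_inv (S : Finset ℕ) (v : ℕ) (hv : 0 < v) (h : ∀ q ∈ S, v ≤ q ∧ q < 2 * v) :
    ∑ d ∈ insert 1 S, 1 / (d : ℝ) ≤ 2 := by
  have vR : (0 : ℝ) < v := by exact_mod_cast hv
  have h1 : #S ≤ v := by
    have : S ⊆ Ico v (2 * v) := fun q hq => mem_Ico.2 (h q hq)
    have := card_le_card this
    rw [Nat.card_Ico] at this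
    omega
  have h2 : ∑ d ∈ S, 1 / (d : ℝ) ≤ 1 := by
    refine (sum_le_card_nsmul S _ (1 / (v : ℝ)) fun q hq =>
      one_div_le_one_div_of_le vR (by exact_mod_cast (h q hq).1)).trans ?_
    rw [nsmul_eq_mul, mul_one_div, div_le_one vR]
    exact_mod_cast h1
  by_cases h3 : 1 ∈ S
  · rw [insert_eq_of_mem h3]; linarith
  · rw [sum_insert h3, Nat.cast_one, div_one]; linarith

theorem stepw_en (N : ℕ) [NeZero N] (F : ZMod N → ℂ) (χ : Ch N) : 0 ≤ en N F χ :=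
  sum_nonneg fun _ _ => by positivity

theorem stepw_row (hB : BLK_s) (hL : LRB_s) (hD : DECW_s) (hK : BLKW_s) (hO : OUT_s)
    (hS : STB_s) : STEPW_s := by
  classical
  obtain ⟨b₀, hL⟩ := hL
  obtain ⟨c₀, hS⟩ := hS
  obtain ⟨c₁, hO⟩ := hO
  refine ⟨b₀ + c₀ + c₁ + 4, fun p _ c α α' hc hp hα hα4 hα' => ?_⟩
  have hcb : c < 2 ^ c := Nat.lt_two_pow_self
  have hb : 4 ≤ 2 ^ c := by omega
  have c4 : (4 : ℝ) ≤ c := by exact_mod_cast (by omega : 4 ≤ c)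
  have l1 := (hL (2 ^ c) (by omega)).1
  rw [Nat.cast_pow, Real.log_pow, Nat.cast_ofNat] at l1
  have l2 := Real.log_two_gt_d9
  have l3 : 0.69 * (c : ℝ) ≤ LR (2 ^ c) := by nlinarith
  refine (hD p (2 ^ c) _ hb hp (by linarith)).trans ?_
  obtain ⟨L, hLe⟩ : ∃ L, L = LR (2 ^ c) := ⟨_, rfl⟩
  rw [← hLe] at l3 ⊢
  obtain ⟨b, hbe⟩ : ∃ b : ℝ, b = 2 ^ c := ⟨_, rfl⟩
  have cb : (c : ℝ) ≤ b := by rw [hbe]; exact_mod_cast hcb.le
  have n1 : (#(BV (2 ^ c)) : ℝ) ≤ 4 * b ^ 5 := by rw [hbe]; exact_mod_cast (hB _ hb).1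
  have c0 : (0 : ℝ) < c := by linarith
  have b0 : 0 < b := by linarith
  have ρ0 : (0 : ℝ) ≤ (p : ℝ) := by positivity
  have t0 : ∀ v ∈ BV (2 ^ c), ∑ χ ∈ Sw p (2 ^ c) α' \ Sw p c α,
      en p (fun a => ∑ q ∈ BF (2 ^ c) v, GG p q (XV p (2 ^ c) v) a) χ ≤
        3 / (4 * b ^ 10 * c) * p := by
    intro v hv
    obtain ⟨v1, v2⟩ := stepw_bv hB hb hv
    have v0 : 0 < v := by have := Nat.two_pow_pos ((2 ^ c) ^ 2); omega
    refine (sum_le_sum fun χ hχ => hK p (2 ^ c) v α' χ hb hv (mem_sdiff.1 hχ).1).trans ?_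
    rw [← mul_sum, sum_comm, mul_assoc, mul_sum]
    obtain ⟨K, hKe⟩ : ∃ K : ℝ,
        K = 16 * (c : ℝ) ^ 5 * 2 ^ c ^ 4 * (v : ℝ) ^ (-(1 / (c : ℝ))) := ⟨_, rfl⟩
    have K0 : 0 ≤ K := by rw [hKe]; positivity
    have h1 : ∀ d ∈ insert 1 (BF (2 ^ c) v), (v : ℝ) ^ (2 - 2 * α') *
        ∑ χ ∈ Sw p (2 ^ c) α' \ Sw p c α, en p (BB p (XV p (2 ^ c) v) d) χ ≤
          K * p * (1 / (d : ℝ)) := by
      intro d hd
      have h := hO p c v d α α' (by omega) hv hd hα hα4 hα'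
      rw [← hKe] at h
      rw [mul_one_div]
      refine le_trans (mul_le_mul_of_nonneg_left (sum_le_sum_of_subset_of_nonneg ?_
        fun χ _ _ => stepw_en _ _ _) (by positivity)) h
      intro χ hχ
      exact mem_compl.2 (mem_sdiff.1 hχ).2
    have h2 := sum_le_sum h1
    rw [← mul_sum _ _ (K * p)] at h2
    have h3 := mul_le_mul_of_nonneg_left (stepw_inv _ v v0 v2) (mul_nonneg K0 ρ0)
    have h := hS c v (by omega) v1
    rw [← hbe] at h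
    have h4 : 12 * K ≤ 3 / (4 * b ^ 10 * c) := by
      rw [le_div_iff₀ (by positivity), hKe]
      calc _ = 3 * (256 * b ^ 10 * (c : ℝ) ^ 6 * 2 ^ c ^ 4 * (v : ℝ) ^ (-(1 / (c : ℝ)))) := by ring
        _ ≤ 3 := by linarith
    have h5 := mul_le_mul_of_nonneg_right h4 ρ0
    linarith
  have t1 := sum_le_card_nsmul (BV (2 ^ c)) _ _ t0
  rw [nsmul_eq_mul] at t1
  have t2 : 2 * (#(BV (2 ^ c)) : ℝ) / L ^ 2 ≤ 2 * (4 * b ^ 5) := by
    refine (div_le_self (by positivity) (one_le_pow₀ (by linarith))).trans ?_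
    linarith
  have t3 := mul_le_mul t2 (t1.trans (mul_le_mul_of_nonneg_right n1 (by positivity)))
    (sum_nonneg fun v _ => sum_nonneg fun χ _ => stepw_en _ _ _) (by positivity)
  have t4 : 2 * (4 * b ^ 5) * (4 * b ^ 5 * (3 / (4 * b ^ 10 * c) * (p : ℝ))) =
      24 * (1 / c * p) := by
    field_simp
    ring
  have t5 : 1 / L ≤ 1.45 * (1 / c) := by
    rw [mul_one_div, div_le_div_iff₀ (by linarith) c0]
    linarith
  have t6 : 1 / b ≤ 1 / c := one_div_le_one_div_of_le c0 cb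
  have t7 : (200 : ℝ) / c = 200 * (1 / c) := by ring
  have t8 : (0 : ℝ) < 1 / c := by positivity
  rw [t4] at t3
  rw [Nat.cast_pow, Nat.cast_ofNat, ← hbe, t7]
  have t9 := mul_le_mul_of_nonneg_right t5 ρ0
  have t10 := mul_le_mul_of_nonneg_right t6 ρ0
  have t11 := mul_nonneg t8.le ρ0
  nlinarith

end Pool.Agent.G1A
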