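import Pool.Agent.MP_b5e119_nt.G42.Climb
import Pool.Agent.MP_b5e119_nt.G27.TAU
import Pool.Agent.MP_b5e119_nt.G1N.MOMKN
import Pool.Agent.MP_b5e119_nt.G1N.CNTN
import Pool.Agent.MP_b5e119_nt.G1A.KER
import Pool.Agent.MP_b5e119_nt.G1A.PARS
import Pool.Agent.MP_b5e119_nt.G1A.LIN
import Pool.Agent.MP_b5e119_nt.G1A.KILL
import Pool.Agent.MP_b5e119_nt.G1A.MISA
import Pool.Agent.MP_b5e119_nt.G1A.MISS
import Pool.Agent.MP_b5e119_nt.G1A.MOMW
import Pool.Agent.MP_b5e119_nt.G1A.AVG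
import Pool.Agent.MP_b5e119_nt.G1A.MISW
import Pool.Agent.MP_b5e119_nt.G1A.MUW
import Pool.Agent.MP_b5e119_nt.G1A.DECW
import Pool.Agent.MP_b5e119_nt.G1A.BLKW
import Pool.Agent.MP_b5e119_nt.G1A.STC
import Pool.Agent.MP_b5e119_nt.G1A.OUT
import Pool.Agent.MP_b5e119_nt.G1A.STEPW
import Pool.Agent.MP_b5e119_nt.G1A.BASEW
import Pool.Agent.MP_b5e119_nt.G1A.INDW
import Pool.Agent.MP_b5e119_nt.G1A.FEWW
import Pool.Agent.MP_b5e119_nt.G1A.LEV1
import Pool.Agent.MP_b5e119_nt.G1A.LEV2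
import Pool.Agent.MP_b5e119_nt.G1A.FEWA

/-! Assembly of the climb over all residue classes. -/

namespace Pool.Agent.G1A

open Pool.Agent.G60 Pool.Agent.G42

theorem pars : PARS_s := pars_row ker_row

theorem stepw : STEPW_s :=
  stepw_row blk_row lrb (decw_row pars lin_row (deca_row tk_row blk_row))
    (blkw_row blk_row lin_row free_row kill_row (miss_row lin_row misa_row misb_row))
    (out_row blk_row (momw_row ker_row gcd_row) (misw_row (avg_row ker_row)) sta_row stc_row)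
    stb_row

theorem feww : FEWW_s :=
  feww_row (indw_row (basew_row lrb blk_row (muw_row pars lin_row kill_row)) stepw)
    (G1N.cntn_row blk_row (G1N.momkn_row gcd_row)) twr_row blk_row

theorem fewa [Sg] : FEWA_s := fewa_row feww (lev2_row lev1_row G27.tau_row)

end Pool.Agent.G1A
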