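import Pool.Agent.MP_b5e119_nt.G42X.Defs
import Pool.Agent.MP_b5e119_nt.G1N.Defs

/-! Statements of the rows of campaign h1a: a positive proportion of sign patterns, any modulus. -/

namespace Pool.Agent.G1A

open Finset Filter Topology Pool.Agent.G60 Pool.Agent.G42

noncomputable section

/-- The part of `F` that transforms by `χ` under the units. -/
def pj (N : ℕ) [NeZero N] (F : ZMod N → ℂ) (χ : Ch N) (a : ZMod N) : ℂ :=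
  (∑ u : (ZMod N)ˣ, (starRingEnd ℂ) (χ (u : ZMod N)) * F ((u : ZMod N) * a)) / (N.totient : ℂ)

def en (N : ℕ) [NeZero N] (F : ZMod N → ℂ) (χ : Ch N) : ℝ := ∑ a, ‖pj N F χ a‖ ^ 2

def fC (N : ℕ) : ZMod N → ℂ := fun a => (ff N a : ℂ)

def BB (N x d : ℕ) : ZMod N → ℂ := fun a =>
  if 1 ≤ a.val ∧ a.val ≤ x ∧ d ∣ a.val then (lam a.val : ℂ) else 0

def GG (N q x : ℕ) : ZMod N → ℂ := fun a =>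
  if q ∣ a.val ∧ 1 ≤ a.val / q ∧ a.val / q ≤ x then (lam (a.val / q) : ℂ) else 0

/-- Primes of a block that are missed by the conductor. -/
def MS (N b v : ℕ) (χ : Ch N) : Finset ℕ := {q ∈ BF b v | q * χ.conductor ∣ N}

open Classical in
def Sw (N b : ℕ) [NeZero N] (α : ℝ) : Finset (Ch N) :=
  {χ ∈ Sm N b α | ∀ v ∈ BV b, (#(MS N b v χ) : ℝ) ≤ (v : ℝ) ^ (1 - 2 * α)}

def cost (N q : ℕ) (χ : Ch N) : ℝ :=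
  if q ∣ N then (if q * χ.conductor ∣ N then 0 else 1) else ‖χ (q : ZMod N) + 1‖ ^ 2

open Classical in
def odU [Sg] (M : ℕ) [NeZero M] : ℕ := #{a : ZMod M | IsUnit a ∧ ff M (-a) ≠ Sg.s * ff M a}

def DJ {N : ℕ} (χ : Ch N) (z j : ℕ) : ℕ :=
  min #{d ∈ G1N.RN N z j | lam d ≠ G27.re χ d} #{d ∈ G1N.RN N z j | lam d ≠ -G27.re χ d}

/-! ### Part 1: projections -/

def KER_s : Prop := ∀ (N : ℕ) [NeZero N] (F : ZMod N → ℂ) (χ : Ch N), (en N F χ : ℂ) =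
  (∑ u : (ZMod N)ˣ, (starRingEnd ℂ) (χ (u : ZMod N)) *
    ∑ a, F ((u : ZMod N) * a) * (starRingEnd ℂ) (F a)) / (N.totient : ℂ)

def PARS_s : Prop := ∀ (N : ℕ) [NeZero N] (F : ZMod N → ℂ), ∑ χ : Ch N, en N F χ = ∑ a, ‖F a‖ ^ 2

def LIN_s : Prop := ∀ (N : ℕ) [NeZero N] (χ : Ch N),
  (∀ (F G : ZMod N → ℂ) (c : ℂ) (a : ZMod N),
    pj N (fun a => c * F a + G a) χ a = c * pj N F χ a + pj N G χ a) ∧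
  (∀ (s : Finset ℕ) (F : ℕ → ZMod N → ℂ) (a : ZMod N),
    pj N (fun a => ∑ i ∈ s, F i a) χ a = ∑ i ∈ s, pj N (F i) χ a) ∧
  ∀ (s : Finset ℕ) (F : ℕ → ZMod N → ℂ),
    en N (fun a => ∑ i ∈ s, F i a) χ ≤ #s * ∑ i ∈ s, en N (F i) χ

def FREE_s : Prop := ∀ (N : ℕ) [NeZero N] (q x : ℕ) (χ : Ch N) (a : ZMod N), q.Coprime N →
  q * x < N → pj N (GG N q x) χ a = (starRingEnd ℂ) (χ (q : ZMod N)) * pj N (BB N x 1) χ a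

def KILL_s : Prop := ∀ (N : ℕ) [NeZero N] (q : ℕ) (χ : Ch N) (F : ZMod N → ℂ), q ∣ N →
  ¬q * χ.conductor ∣ N → ((∀ a : ZMod N, ¬q ∣ a.val → F a = 0) → ∀ a, pj N F χ a = 0) ∧
    ∀ a, pj N (fun a => F ((q : ZMod N) * a)) χ a = 0

def MISA_s : Prop := ∀ (N : ℕ) [NeZero N] (q x : ℕ) (χ : Ch N), q ∣ N → q * x < N →
  (∀ a : ZMod N, ¬q ∣ a.val → pj N (GG N q x) χ a = 0) ∧ ∀ w : ZMod N → ℝ, (∀ a, 0 ≤ w a) →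
    ∑ a, w a * ‖pj N (GG N q x) χ a‖ ^ 2 ≤
      q * ∑ c, w ((q : ZMod N) * c) * ‖pj N (BB N x 1) χ c‖ ^ 2

def MISB_s : Prop := ∀ (N : ℕ) [NeZero N] (x d : ℕ) (χ : Ch N) (c : ZMod N), d ∣ N →
  pj N (BB N x d) χ c = if d ∣ c.val then pj N (BB N x 1) χ c else 0

def MISS_s : Prop := ∀ (N : ℕ) [NeZero N] (J : Finset ℕ) (x v : ℕ) (χ : Ch N),
  (∀ q ∈ J, q.Prime ∧ q ∣ N ∧ q ≤ 2 * v ∧ q * x < N) →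
    en N (fun a => ∑ q ∈ J, GG N q x a) χ ≤
      2 * v * #J * (en N (BB N x 1) χ + ∑ d ∈ J, en N (BB N x d) χ)

def MOMW_s : Prop := ∀ (N : ℕ) [NeZero N] (S : Finset ℕ) (P k x d : ℕ),
  (∀ q ∈ S, q.Prime ∧ P ≤ q ∧ q < 2 * P) → (2 * P) ^ k * x < N → 0 < d →
    ∑ χ : Ch N, ‖∑ q ∈ S, χ (q : ZMod N)‖ ^ (2 * k) * en N (BB N x d) χ ≤
      (x : ℝ) / d * (P : ℝ) ^ k * ((k : ℝ) + 1) ^ k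

def AVG_s : Prop := ∀ (N : ℕ) [NeZero N] (g x d : ℕ), g ∣ N → g.Coprime d → g * x < N → 0 < d →
  ∑ χ : Ch N with g * χ.conductor ∣ N, en N (BB N x d) χ ≤ #g.divisors * ((x : ℝ) / d) / g.totient

open Classical in
def MISW_s : Prop := ∀ (N : ℕ) [NeZero N] (b u k x d : ℕ) (y : ℝ),
  (∀ q ∈ BF b u, u ≤ q ∧ q < 2 * u ∧ q.Coprime d) → (2 * u) ^ k * x < N → 0 < d → 0 < y →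
  2 * (k : ℝ) ≤ y →
    ∑ χ : Ch N with y ≤ #(MS N b u χ), en N (BB N x d) χ ≤ (x : ℝ) / d * (8 / y) ^ k

def MUW_s : Prop := ∀ (N : ℕ) [NeZero N] (q : ℕ), q.Prime →
  ∑ χ : Ch N, en N (fC N) χ * cost N q χ ≤ 4 * bad N q

/-! ### Part 2: the climb -/

def DECW_s : Prop := ∀ (N : ℕ) [NeZero N] (b : ℕ) (T : Finset (Ch N)), 4 ≤ b → 2 ^ b ^ 4 < N →
  0 < LR b → ∑ χ ∈ T, en N (fC N) χ ≤ 40 * (1 / LR b + 1 / b) * N + 2 * #(BV b) / LR b ^ 2 *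
    ∑ v ∈ BV b, ∑ χ ∈ T, en N (fun a => ∑ q ∈ BF b v, GG N q (XV N b v) a) χ

def BLKW_s : Prop := ∀ (N : ℕ) [NeZero N] (b v : ℕ) (α : ℝ) (χ : Ch N), 4 ≤ b → v ∈ BV b →
  χ ∈ Sw N b α → en N (fun a => ∑ q ∈ BF b v, GG N q (XV N b v) a) χ ≤
    6 * (v : ℝ) ^ (2 - 2 * α) * ∑ d ∈ insert 1 (BF b v), en N (BB N (XV N b v) d) χ

def STC_s : Prop := ∃ c₀ : ℕ, ∀ (c u v k : ℕ) (α : ℝ), c₀ ≤ c → 2 ^ c ^ 2 ≤ 2 * u → u < 2 ^ c ^ 4 →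
  2 ^ (2 ^ c) ^ 2 ≤ 2 * v → v < 2 ^ (2 ^ c) ^ 4 → (2 * u) ^ k ≤ v → v < (2 * u) ^ (k + 1) →
  α ≤ 1 / 4 → 7 ≤ k ∧ 2 * (k : ℝ) ≤ (u : ℝ) ^ (1 - 2 * α) ∧ c ^ 4 ≤ (2 ^ c) ^ 2

open Classical in
/-- The characters outside the previous scale carry little of a short sum. -/
def OUT_s : Prop := ∃ c₀ : ℕ, ∀ (N : ℕ) [NeZero N] (c v d : ℕ) (α α' : ℝ), c₀ ≤ c →
  v ∈ BV (2 ^ c) → d ∈ insert 1 (BF (2 ^ c) v) → 0 ≤ α → α ≤ 1 / 4 → α + 3 / c ≤ α' →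
    (v : ℝ) ^ (2 - 2 * α') * ∑ χ ∈ (Sw N c α)ᶜ, en N (BB N (XV N (2 ^ c) v) d) χ ≤
      16 * (c : ℝ) ^ 5 * 2 ^ c ^ 4 * (v : ℝ) ^ (-(1 / (c : ℝ))) * N / d

open Classical in
def STEPW_s : Prop := ∃ c₀ : ℕ, ∀ (N : ℕ) [NeZero N] (c : ℕ) (α α' : ℝ), c₀ ≤ c →
  2 ^ (2 ^ c) ^ 4 < N → 0 ≤ α → α ≤ 1 / 4 → α + 3 / c ≤ α' →
    ∑ χ ∈ Sw N (2 ^ c) α' \ Sw N c α, en N (fC N) χ ≤ 200 / c * N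

def BASEW_s : Prop := ∀ α : ℝ, 0 < α → ∃ b₀ : ℕ, ∀ (N : ℕ) [NeZero N] (b : ℕ) (β : ℝ), b₀ ≤ b →
  G1N.BM N (2 ^ b ^ 4) β → ∑ χ ∈ Sw N b α, en N (fC N) χ ≤ 16 * β * N

def INDW_s : Prop := ∀ α e : ℝ, 0 < α → α ≤ 1 / 4 → 0 < e → ∀ B : ℕ, ∃ b : ℕ, B ≤ b ∧ ∃ β : ℝ,
  0 < β ∧ ∀ (N : ℕ) [NeZero N], G1N.BM N (2 ^ b ^ 4) β → ∀ j : ℕ, 2 ^ tw b j ^ 4 < N →
    ∑ χ ∈ Sw N (tw b j) α, en N (fC N) χ ≤ e * N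

open Classical in
def FEWW_s : Prop := ∀ γ e : ℝ, 0 < γ → 0 < e → ∃ (y : ℕ) (β : ℝ) (N₀ : ℕ), 0 < β ∧
  ∀ (N : ℕ) [NeZero N], N₀ ≤ N → G1N.BM N y β →
    ∃ U : Finset (Ch N), (#U : ℝ) ≤ (N : ℝ) ^ γ ∧ ∑ χ ∈ Uᶜ, en N (fC N) χ ≤ e * N

/-! ### Part 3: one level -/

def LEV1_s : Prop := ∀ (N M g : ℕ) [NeZero N] [NeZero M] (h : M ∣ N) (ψ : Ch M), M * g = N →
  (M.totient : ℝ) * G27.nu M ψ ≤ ∑ a : ZMod N with Nat.gcd a.val N = g,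
    ‖pj N (fC N) (DirichletCharacter.changeLevel h ψ) a‖ ^ 2

open Classical in
def LEV2_s [Sg] : Prop := ∃ N₀ : ℕ, ∀ (N : ℕ) [NeZero N], N₀ ≤ N → ∀ (U : Finset (Ch N)) (e β : ℝ),
  0 < e → 0 < β → ∑ χ ∈ Uᶜ, en N (fC N) χ ≤ e * N → (od N : ℝ) ≤ β * N →
    ∃ (M : ℕ) (_ : NeZero M), M ∣ N ∧ N ^ 999 ≤ M ^ 1000 ∧ ∃ V : Finset (Ch M), #V ≤ #U ∧
      ∑ ψ ∈ Vᶜ, G27.nu M ψ ≤ 4 * e ∧ (odU M : ℝ) ≤ 4 * β * M.totient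

def NU1_s : Prop := ∀ η : ℝ, 0 < η → ∃ M₀ : ℕ, ∀ (M : ℕ) [NeZero M], M₀ ≤ M → G27.nu M 1 ≤ η

open Classical in
def TYPF_s : Prop := ∀ k : ℕ, 16 ≤ k → ∃ N₀ : ℕ, ∀ (N : ℕ) [NeZero N], N₀ ≤ N →
  ∀ U : Finset (Ch N), (#U : ℝ) ≤ (N : ℝ) ^ (1 / (2 * (k : ℝ))) →
    ∃ d : ℕ → ℕ, (∀ i ∈ II N k, d i ∈ WN N (Nat.log 2 N / k) i) ∧
      ∑ χ ∈ U, G27.nu N χ * ∑ i ∈ II N k, EN N (Nat.log 2 N / k) (hh χ) (fun i => hh χ (d i)) i ≤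
        768 * 4 ^ k * ∑ χ ∈ Uᶜ, G27.nu N χ

open Classical in
def ENDF_s : Prop := ∃ K γ : ℝ, 0 < K ∧ 0 < γ ∧ ∃ N₀ : ℕ, ∀ (N : ℕ) [NeZero N], N₀ ≤ N →
  ∀ U : Finset (Ch N), (#U : ℝ) ≤ (N : ℝ) ^ γ → K * ∑ χ ∈ Uᶜ, G27.nu N χ < 1 →
    ∃ χ : Ch N, χ ^ 2 = 1 ∧ 1 - G27.nu N χ ≤ K * ∑ χ ∈ Uᶜ, G27.nu N χ

def STRF_s [Sg] : Prop := ∀ (N : ℕ) [NeZero N] (χ : Ch N) (t : ℝ), 1 < N → χ ^ 2 = 1 →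
  1 - G27.nu N χ ≤ t → t * N.totient + odU N < N.totient →
    ∃ σ : ℤ, (σ = 1 ∨ σ = -1) ∧ 2 * (G27.EX χ σ : ℝ) ≤ t * N.totient ∧ G27.re χ (N - 1) = Sg.s

def INVF_s : Prop := ∀ ε : ℝ, 0 < ε → ∃ (c : ℝ) (N₀ : ℕ), 0 < c ∧ ∀ N : ℕ, N₀ ≤ N →
  ∀ e e' : ℤ, (e = 1 ∨ e = -1) → (e' = 1 ∨ e' = -1) → (cnt N e e' : ℝ) < c * N →
    ∃ (M : ℕ) (_ : NeZero M) (χ : Ch M) (σ : ℤ), M ∣ N ∧ N ^ 999 ≤ M ^ 1000 ∧ χ ^ 2 = 1 ∧ χ ≠ 1 ∧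
      χ (-1) = -(e * e' : ℤ) ∧ (σ = 1 ∨ σ = -1) ∧ (G27.EX χ σ : ℝ) ≤ ε * M.totient

/-! ### Part 4: one exceptional character -/

def TYPE_s : Prop := ∃ N₀ : ℕ, ∀ (N : ℕ) [NeZero N], N₀ ≤ N →
  ∀ (χ : Ch N) (σ : ℤ) (z k : ℕ) (J : Finset ℕ) (ε : ℝ), χ ^ 2 = 1 → (σ = 1 ∨ σ = -1) → 2 ≤ z →
    N ≤ z ^ k → (∀ j ∈ J, 100 * (j + 1) ≤ 99 * Nat.log 2 N) → (G27.EX χ σ : ℝ) ≤ ε * N.totient →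
      ∑ j ∈ J, (DJ χ z j : ℝ) / 2 ^ j ≤ 8 * 2 ^ k * ε

def KEYB_s : Prop := ∀ κ : ℝ, 0 < κ → κ ≤ 1 / 100 → ∃ k N₀ : ℕ, ∀ N : ℕ, N₀ ≤ N → ∃ z : ℕ,
  2 ≤ z ∧ N ≤ z ^ k ∧ z ^ 5 ≤ N ∧ ∀ j : ℕ, 97 * Nat.log 2 N ≤ 100 * j → j + 1 ≤ Nat.log 2 N →
    ∀ (r : ℕ) (g : Ch r) (c : ℂ), ‖c‖ = 1 →
      (∀ Y : ℕ, (N : ℝ) ^ (0.964 : ℝ) ≤ Y → ‖∑ n ∈ Icc 1 Y, g (n : ZMod r)‖ ≤ Y * (N : ℝ) ^ (-κ)) →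
        (2 : ℝ) ^ j / (2 * Nat.log 2 N) ≤ 4 ^ (k + 1) * ∑ d ∈ G94.RR z j, ‖g (d : ZMod r) - c‖ ^ 2

def REPF_s : Prop := ∃ ε : ℝ, 0 < ε ∧ ∃ N₀ : ℕ, ∀ (M M' : ℕ) [NeZero M] [NeZero M'], N₀ ≤ M →
  M ≤ M' → M' ^ 100 ≤ M ^ 201 → ∀ (χ : Ch M) (χ' : Ch M') (s s' : ℤ), χ ^ 2 = 1 → χ' ^ 2 = 1 →
    (s = 1 ∨ s = -1) → (s' = 1 ∨ s' = -1) → (G27.EX χ s : ℝ) ≤ ε * M.totient →
    (G27.EX χ' s' : ℝ) ≤ ε * M'.totient →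
      ∀ n : ℕ, n.Coprime (M * M') → χ (n : ZMod M) = χ' (n : ZMod M')

def LRGF_s : Prop := ∃ ε : ℝ, 0 < ε ∧ ∀ A : ℕ, ∃ N₀ : ℕ, ∀ (N : ℕ) [NeZero N], N₀ ≤ N →
  ∀ (χ : Ch N) (σ : ℤ), χ ^ 2 = 1 → χ ≠ 1 → (σ = 1 ∨ σ = -1) →
    (G27.EX χ σ : ℝ) ≤ ε * N.totient → Real.log N ^ A < χ.conductor

def TOPA_s : Prop := ∃ c : ℝ, 0 < c ∧ ∀ A : ℕ, ∃ X₀ : ℕ, ∀ X : ℕ, X₀ ≤ X →
  ∃ (q : ℕ) (ψ : DirichletCharacter ℂ q), ψ.IsPrimitive ∧ ψ ^ 2 = 1 ∧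
    ∀ M N : ℕ, X ≤ M → M ≤ X ^ 2 → 0 < N → M ∣ N →
      ∀ e e' : ℤ, (e = 1 ∨ e = -1) → (e' = 1 ∨ e' = -1) → (cnt N e e' : ℝ) < c * M →
        Real.log X ^ A ≤ q ∧ q ∣ M ∧ ψ (-1) = -(e * e' : ℤ)

end

end Pool.Agent.G1A
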