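import Pool.Agent.MP_b5e119_nt.G1A.Defs

namespace Pool.Agent.G1A

open Finset Filter Topology Pool.Agent.G60 Pool.Agent.G42

theorem lev2_val {N M g : ℕ} [NeZero N] [NeZero M] (h : M * g = N) (a : ZMod M) :
    ((g * a.val : ℕ) : ZMod N).val = g * a.val := by
  have hg : 0 < g := Nat.pos_of_ne_zero (by rintro rfl; exact NeZero.ne N (by omega))
  refine ZMod.val_cast_of_lt ?_
  rw [← h, mul_comm M]
  exact Nat.mul_lt_mul_of_pos_left (ZMod.val_lt a) hg

theorem lev2_ff {N M g : ℕ} [NeZero N] [NeZero M] (h : M * g = N) (a : ZMod M) :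
    ff N ((g * a.val : ℕ) : ZMod N) = lam g * ff M a := by
  have hg : g ≠ 0 := by rintro rfl; exact NeZero.ne N (by omega)
  by_cases h0 : a = 0
  · subst h0
    simp [ff]
  · have h1 : a.val ≠ 0 := mt (ZMod.val_eq_zero a).1 h0
    have h2 : ((g * a.val : ℕ) : ZMod N) ≠ 0 := fun e => by
      have := lev2_val h a
      rw [e, ZMod.val_zero] at this
      exact mul_ne_zero hg h1 this.symm
    rw [ff, if_neg h2, ff, if_neg h0, lev2_val h, lam_mul hg h1]

theorem lev2_neg {N M g : ℕ} [NeZero N] [NeZero M] (h : M * g = N) (a : ZMod M) :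
    -((g * a.val : ℕ) : ZMod N) = ((g * (-a).val : ℕ) : ZMod N) := by
  rw [neg_eq_iff_add_eq_zero, ← Nat.cast_add, ← mul_add, ZMod.natCast_eq_zero_iff, ← h, mul_comm M]
  refine Nat.mul_dvd_mul_left _ ?_
  rw [← ZMod.natCast_eq_zero_iff]
  simp

theorem lev2_od [Sg] {N M g : ℕ} [NeZero N] [NeZero M] (h : M * g = N) :
    odU M ≤ #{a ∈ ({a : ZMod N | ff N (-a) ≠ Sg.s * ff N a} : Finset (ZMod N)) |
      Nat.gcd a.val N = g} := by
  classical
  have hg : 0 < g := Nat.pos_of_ne_zero (by rintro rfl; exact NeZero.ne N (by omega))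
  refine card_le_card_of_injOn (fun a => ((g * a.val : ℕ) : ZMod N)) (fun a ha => ?_)
    fun a _ b _ e => ?_
  · simp only [coe_filter, mem_filter, mem_univ, true_and, Set.mem_ofPred_eq] at ha ⊢
    refine ⟨?_, ?_⟩
    · rw [lev2_neg h, lev2_ff h, lev2_ff h, mul_left_comm]
      intro e
      refine ha.2 (mul_left_cancel₀ ?_ e)
      rcases lam_cases g with c | c <;> rw [c] <;> norm_num
    · have hc : a.val.Coprime M := by
        rw [← ZMod.isUnit_iff_coprime, ZMod.natCast_zmod_val]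
        exact ha.1
      rw [lev2_val h]
      conv_lhs => rw [← h, mul_comm M, Nat.gcd_mul_left, hc.gcd_eq_one, mul_one]
  · have e' := congrArg ZMod.val e
    simp only [lev2_val h] at e'
    exact ZMod.val_injective _ (Nat.eq_of_mul_eq_mul_left hg e')

theorem lev2_big (hT : G27.TAU_s) : ∃ N₀ : ℕ, ∀ N : ℕ, N₀ ≤ N →
    3 / 4 * (N : ℝ) ≤ ∑ g ∈ N.divisors with g ^ 1000 ≤ N, ((N / g).totient : ℝ) := by
  obtain ⟨C, hC, hT⟩ := hT.2 (1 / 2000) (by norm_num)
  obtain ⟨N₀, h0⟩ := eventually_atTop.1 (((tendsto_rpow_atTop (by norm_num : (0 : ℝ) < 1 / 2000)).comp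
    tendsto_natCast_atTop_atTop).eventually_ge_atTop (4 * C))
  refine ⟨N₀ + 1, fun N hN => ?_⟩
  have hN0 : (0 : ℝ) < N := by exact_mod_cast (by omega : 0 < N)
  obtain ⟨s, hs⟩ : ∃ s : ℝ, s = (N : ℝ) ^ (1 / 2000 : ℝ) := ⟨_, rfl⟩
  have s0 : 0 < s := by rw [hs]; positivity
  have s1 : 4 * C ≤ s := hs ▸ h0 N (by omega)
  have s2 : (s * s) ^ 1000 = N := by
    rw [← sq, ← pow_mul, hs, ← Real.rpow_natCast, ← Real.rpow_mul hN0.le]
    norm_num
  have e1 : ∑ g ∈ N.divisors, ((N / g).totient : ℝ) = N := by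
    rw [Nat.sum_div_divisors N fun d => (d.totient : ℝ)]
    exact_mod_cast Nat.sum_totient N
  have e2 := sum_filter_add_sum_filter_not N.divisors (fun g => g ^ 1000 ≤ N)
    fun g => ((N / g).totient : ℝ)
  have e3 : ∑ g ∈ N.divisors with ¬g ^ 1000 ≤ N, ((N / g).totient : ℝ) ≤
      #N.divisors * (N / (s * s)) := by
    refine (sum_le_card_nsmul _ _ (N / (s * s)) fun g hg => ?_).trans ?_
    · have g1 : (s * s) ^ 1000 < (g : ℝ) ^ 1000 := by
        rw [s2]
        exact_mod_cast not_le.1 (mem_filter.1 hg).2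
      have g2 : s * s < g := lt_of_pow_lt_pow_left₀ _ (Nat.cast_nonneg _) g1
      calc ((N / g).totient : ℝ) ≤ (N / g : ℕ) := by exact_mod_cast Nat.totient_le _
        _ ≤ N / g := Nat.cast_div_le
        _ ≤ _ := div_le_div_of_nonneg_left hN0.le (by positivity) g2.le
    · rw [nsmul_eq_mul]
      exact mul_le_mul_of_nonneg_right (by exact_mod_cast card_filter_le _ _) (by positivity)
  have e4 : (#N.divisors : ℝ) * (N / (s * s)) ≤ 1 / 4 * N := by
    refine (mul_le_mul_of_nonneg_right (hs ▸ hT N) (by positivity)).trans ?_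
    rw [show C * s * (N / (s * s)) = C / s * N by field_simp]
    refine mul_le_mul_of_nonneg_right ?_ hN0.le
    rw [div_le_iff₀ s0]
    linarith
  linarith

theorem lev2_row [Sg] (hL : LEV1_s) (hT : G27.TAU_s) : LEV2_s := by
  classical
  obtain ⟨N₀, hB⟩ := lev2_big hT
  refine ⟨N₀, fun N _ hN U e β he hβ hU hod => ?_⟩
  by_contra hc
  have hN0 : (0 : ℝ) < N := by exact_mod_cast NeZero.pos N
  obtain ⟨O, hO⟩ : ∃ O : Finset (ZMod N),
      O = univ.filter fun a : ZMod N => ff N (-a) ≠ Sg.s * ff N a := ⟨_, rfl⟩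
  have key : ∀ g ∈ N.divisors.filter (fun g => g ^ 1000 ≤ N), ((N / g).totient : ℝ) ≤
      (∑ a : ZMod N with Nat.gcd a.val N = g, ∑ χ ∈ Uᶜ, ‖pj N (fC N) χ a‖ ^ 2) / (4 * e) +
        (∑ a ∈ O with Nat.gcd a.val N = g, (1 : ℝ)) / (4 * β) := by
    intro g hg
    obtain ⟨g1, g2⟩ := mem_filter.1 hg
    obtain ⟨M, hM⟩ := Nat.dvd_of_mem_divisors g1
    have hM' : M * g = N := by rw [hM, mul_comm]
    have g0 : 0 < g := Nat.pos_of_mem_divisors g1
    have : NeZero M := ⟨by rintro rfl; exact NeZero.ne N (by omega)⟩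
    have hd : M ∣ N := Dvd.intro _ hM'
    rw [show N / g = M by rw [← hM', Nat.mul_div_cancel _ g0]]
    obtain ⟨V, hV⟩ : ∃ V : Finset (Ch M),
        V = univ.filter fun ψ => DirichletCharacter.changeLevel hd ψ ∈ U := ⟨_, rfl⟩
    have inj := DirichletCharacter.changeLevel_injective (R := ℂ) hd
    have v1 : #V ≤ #U := card_le_card_of_injOn (DirichletCharacter.changeLevel hd)
      (fun ψ h => by simpa [hV] using h) inj.injOn
    have v2 : (M.totient : ℝ) * ∑ ψ ∈ Vᶜ, G27.nu M ψ ≤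
        ∑ a : ZMod N with Nat.gcd a.val N = g, ∑ χ ∈ Uᶜ, ‖pj N (fC N) χ a‖ ^ 2 := by
      rw [mul_sum, sum_comm]
      refine (sum_le_sum fun ψ _ => hL N M g hd ψ hM').trans ?_
      rw [← sum_image (f := fun χ => ∑ a : ZMod N with Nat.gcd a.val N = g,
        ‖pj N (fC N) χ a‖ ^ 2) inj.injOn]
      refine sum_le_sum_of_subset_of_nonneg (fun χ h => ?_) fun _ _ _ => by positivity
      obtain ⟨ψ, h1, rfl⟩ := mem_image.1 h
      simpa [hV] using h1
    have v3 : (odU M : ℝ) ≤ ∑ a ∈ O with Nat.gcd a.val N = g, (1 : ℝ) := by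
      rw [sum_const, nsmul_eq_mul, mul_one, hO]
      exact_mod_cast lev2_od hM'
    have v4 : N ^ 999 ≤ M ^ 1000 := by
      refine Nat.le_of_mul_le_mul_right ?_ (pow_pos g0 1000)
      rw [← mul_pow, hM', pow_succ N 999]
      exact Nat.mul_le_mul_left _ g2
    have hφ : (0 : ℝ) ≤ M.totient := Nat.cast_nonneg _
    have p1 : 0 ≤ (∑ a : ZMod N with Nat.gcd a.val N = g, ∑ χ ∈ Uᶜ, ‖pj N (fC N) χ a‖ ^ 2) /
        (4 * e) := by positivity
    have p2 : 0 ≤ (∑ a ∈ O with Nat.gcd a.val N = g, (1 : ℝ)) / (4 * β) := by positivity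
    by_cases w : ∑ ψ ∈ Vᶜ, G27.nu M ψ ≤ 4 * e
    · have w2 : 4 * β * M.totient < odU M :=
        not_le.1 fun w2 => hc ⟨M, this, hd, v4, V, v1, w, w2⟩
      refine le_add_of_nonneg_of_le p1 ?_
      rw [le_div_iff₀ (by positivity)]
      linarith
    · refine le_add_of_le_of_nonneg ?_ p2
      rw [le_div_iff₀ (by positivity)]
      exact (mul_le_mul_of_nonneg_left (not_le.1 w).le hφ).trans v2
  have h1 := (hB N hN).trans (sum_le_sum key)
  rw [sum_add_distrib, ← sum_div, ← sum_div] at h1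
  have h2 : ∑ g ∈ N.divisors with g ^ 1000 ≤ N, ∑ a : ZMod N with Nat.gcd a.val N = g,
      ∑ χ ∈ Uᶜ, ‖pj N (fC N) χ a‖ ^ 2 ≤ e * N := by
    refine (sum_fiberwise_le_sum_of_sum_fiber_nonneg fun _ _ => by positivity).trans ?_
    rw [sum_comm]
    exact hU
  have h3 : ∑ g ∈ N.divisors with g ^ 1000 ≤ N, ∑ a ∈ O with Nat.gcd a.val N = g, (1 : ℝ) ≤
      β * N := by
    refine (sum_fiberwise_le_sum_of_sum_fiber_nonneg fun _ _ => by positivity).trans ?_
    rw [sum_const, nsmul_eq_mul, mul_one, hO]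
    exact hod
  have h4 := div_le_div_of_nonneg_right h2 (by positivity : 0 ≤ 4 * e)
  have h5 := div_le_div_of_nonneg_right h3 (by positivity : 0 ≤ 4 * β)
  rw [show e * N / (4 * e) = N / 4 by field_simp] at h4
  rw [show β * N / (4 * β) = N / 4 by field_simp] at h5
  linarith

end Pool.Agent.G1A
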